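import Pool.Agent.SYR.St

/-!
# SYR [AXN]: the negative clauses are valid
-/

set_option autoImplicit false
set_option linter.unusedVariables false

namespace Pool.Agent.SYR

open Set

/-- the action of a permutation on the variables -/
private def axn_act {I J K : Type} (a : I → ℕ) (b : J → ℕ) (σ : K → K) (x : Tup a K × Tup b K) :
    Tup a K × Tup b K := (x.1.map a σ, x.2.map b σ)

private theorem axn_tup_comp {I K L M : Type} (a : I → ℕ) (e : K → L) (e' : L → M) (p : Tup a K) :
    (p.map a e).map a e' = p.map a (e' ∘ e) := rfl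

private theorem axn_tup_id {I K : Type} (a : I → ℕ) (p : Tup a K) : p.map a (id : K → K) = p := rfl

private theorem axn_act_comp {I J K : Type} (a : I → ℕ) (b : J → ℕ) (σ σ' : K → K)
    (x : Tup a K × Tup b K) : axn_act a b σ' (axn_act a b σ x) = axn_act a b (σ' ∘ σ) x := rfl

private theorem axn_act_id {I J K : Type} (a : I → ℕ) (b : J → ℕ) (x : Tup a K × Tup b K) :
    axn_act a b (id : K → K) x = x := rfl

private theorem axn_fix_tup {I K : Type} (a : I → ℕ) (σ : K → K) (p : Tup a K)
    (h : p.map a σ = p) (u : Fin (a p.1)) : σ (p.2 u) = p.2 u := by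
  obtain ⟨i, q⟩ := p
  have h1 : (⟨i, σ ∘ q⟩ : Tup a K) = ⟨i, q⟩ := h
  have h2 : σ ∘ q = q := by
    rw [Sigma.mk.injEq] at h1
    exact eq_of_heq h1.2
  exact congrFun h2 u

/-- a three-cycle moving `c` and fixing a small set -/
private theorem axn_cycle {K : Type} [Fintype K] [DecidableEq K] (S : Finset K) (r : ℕ)
    (hS : S.card < r) (hr : r + 2 ≤ Fintype.card K) (c : K) (hc : c ∉ S) :
    ∃ σ : Equiv.Perm K, Equiv.Perm.sign σ = 1 ∧ (∀ x ∈ S, σ x = x) ∧ σ c ≠ c ∧
      ∀ x, σ (σ (σ x)) = x := by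
  have h1 : 2 < (Finset.univ \ S).card := by
    rw [Finset.card_sdiff_of_subset (Finset.subset_univ S), Finset.card_univ]
    omega
  have h2 : 1 < ((Finset.univ \ S).erase c).card := by
    rw [Finset.card_erase_of_mem (by simp [hc])]
    omega
  obtain ⟨d, hd, l, hl, hdl⟩ := Finset.one_lt_card.1 h2
  rw [Finset.mem_erase, Finset.mem_sdiff] at hd hl
  obtain ⟨hdc, -, hdS⟩ := hd
  obtain ⟨hlc, -, hlS⟩ := hl
  have hσ : ∀ x, (Equiv.swap c d * Equiv.swap d l) x =
      if x = c then d else if x = d then l else if x = l then c else x := by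
    intro x
    rw [Equiv.Perm.mul_apply]
    by_cases hxc : x = c
    · subst hxc
      rw [if_pos rfl, Equiv.swap_apply_of_ne_of_ne hdc.symm hlc.symm, Equiv.swap_apply_left]
    · rw [if_neg hxc]
      by_cases hxd : x = d
      · subst hxd
        rw [if_pos rfl, Equiv.swap_apply_left, Equiv.swap_apply_of_ne_of_ne hlc hdl.symm]
      · rw [if_neg hxd]
        by_cases hxl : x = l
        · subst hxl
          rw [if_pos rfl, Equiv.swap_apply_right, Equiv.swap_apply_right]
        · rw [if_neg hxl, Equiv.swap_apply_of_ne_of_ne hxd hxl,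
            Equiv.swap_apply_of_ne_of_ne hxc hxd]
  refine ⟨Equiv.swap c d * Equiv.swap d l, ?_, ?_, ?_, ?_⟩
  · rw [Equiv.Perm.sign_mul, Equiv.Perm.sign_swap hdc.symm, Equiv.Perm.sign_swap hdl]
    rfl
  · intro x hx
    rw [hσ, if_neg, if_neg, if_neg]
    · rintro rfl; exact hlS hx
    · rintro rfl; exact hdS hx
    · rintro rfl; exact hc hx
  · rw [hσ, if_pos rfl]
    exact hdc
  · intro x
    simp only [hσ]
    by_cases hxc : x = c
    · subst hxc
      simp [hdc, hlc, hdl.symm]
    · by_cases hxd : x = d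
      · subst hxd
        simp [hdc, hlc, hdl.symm]
      · by_cases hxl : x = l
        · subst hxl
          simp [hdc, hlc, hdl.symm]
        · simp [hxc, hxd, hxl]

/-- the points of the first variable of a negative clause are in the support -/
private theorem axn_pts {I J K N : Type} [Fintype K] [DecidableEq K] (a : I → ℕ) (b : J → ℕ)
    (C : Circ (Tup a K × Tup b K) N) (r : ℕ) (S : N → Finset K) (hS : Supp C r S)
    (hr : r + 2 ≤ Fintype.card K) (g : N) (x x' : Tup a K × Tup b K) (hne : x ≠ x')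
    (hg : IsClause C g {(x, false), (x', false)}) :
    (∀ u, x.1.2 u ∈ S g) ∧ ∀ u, x.2.2 u ∈ S g := by
  -- a fixed point property
  have key : ∀ c : K, c ∉ S g → ∃ σ : K → K, σ c ≠ c ∧ axn_act a b σ x = x := by
    intro c hc
    obtain ⟨σ, hsign, hfix, hmov, h3⟩ := axn_cycle (S g) r (hS.card g) hr c hc
    obtain ⟨τ, hτ, hτg⟩ := hS.mem g σ hsign hfix
    obtain ⟨T, hT, hT1, hT2⟩ := hg
    have hTτ : τ '' T = T := by
      have h1 := hτ g
      rw [hτg, hT] at h1
      simp only [Lab.map, Lab.big.injEq] at h1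
      exact h1.2.symm
    have hmaps : ∀ y, ((y, false) : (Tup a K × Tup b K) × Bool) ∈
        ({(x, false), (x', false)} : Set ((Tup a K × Tup b K) × Bool)) →
        axn_act a b σ y = x ∨ axn_act a b σ y = x' := by
      intro y hy
      obtain ⟨h₁, hh₁, hlit⟩ := hT2 _ hy
      rcases hlit with ⟨h0, -⟩ | ⟨-, h₂, hn, hv⟩
      · exact absurd h0 (by simp)
      have hτh₁ : τ h₁ ∈ T := by
        rw [← hTτ]
        exact ⟨h₁, hh₁, rfl⟩
      have e1 := hτ h₁
      rw [hn] at e1
      have e2 := hτ h₂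
      rw [hv] at e2
      simp only [Lab.map] at e1 e2
      obtain ⟨l, hl, hlit'⟩ := hT1 _ hτh₁
      rcases hlit' with ⟨h0, hvar⟩ | ⟨-, h₃, hn', hv'⟩
      · rw [e1] at hvar
        exact absurd hvar (by simp)
      · rw [e1, Lab.neg.injEq] at hn'
        rw [← hn', e2, Lab.var.injEq] at hv'
        rcases hl with rfl | hl
        · left
          exact hv'
        · right
          rw [Set.mem_singleton_iff] at hl
          subst hl
          exact hv'
    refine ⟨σ, hmov, ?_⟩
    have hx := hmaps x (Or.inl rfl)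
    have hx' := hmaps x' (Or.inr rfl)
    have hcube : ∀ y, axn_act a b σ (axn_act a b σ (axn_act a b σ y)) = y := by
      intro y
      rw [axn_act_comp, axn_act_comp]
      have h4 : (((σ : K → K) ∘ σ) ∘ σ) = id := by
        funext z
        exact h3 z
      rw [h4, axn_act_id]
    rcases hx with hx | hx
    · exact hx
    · exfalso
      rcases hx' with hx' | hx'
      · have h5 := hcube x
        rw [hx, hx', hx] at h5
        exact hne h5.symm
      · have h5 := hcube x
        rw [hx, hx', hx'] at h5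
        exact hne h5.symm
  constructor
  · intro u
    by_contra hu
    obtain ⟨σ, hσ, hx⟩ := key _ hu
    apply hσ
    exact axn_fix_tup a σ x.1 (congrArg Prod.fst hx) u
  · intro u
    by_contra hu
    obtain ⟨σ, hσ, hx⟩ := key _ hu
    apply hσ
    exact axn_fix_tup b σ x.2 (congrArg Prod.snd hx) u

private theorem axn_map_congr {I K K' : Type} (a : I → ℕ) (e e' : K → K') (p : Tup a K)
    (h : ∀ u, e (p.2 u) = e' (p.2 u)) : p.map a e = p.map a e' := by
  obtain ⟨i, q⟩ := p
  unfold Tup.map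
  congr 1
  funext u
  exact h u

private theorem axn_map_inj {I K K' : Type} (a : I → ℕ) (e : K → K') (s : Set K) (he : InjOn e s)
    (p p' : Tup a K) (hp : ∀ u, p.2 u ∈ s) (hp' : ∀ u, p'.2 u ∈ s)
    (h : p.map a e = p'.map a e) : p = p' := by
  obtain ⟨i, q⟩ := p
  obtain ⟨i', q'⟩ := p'
  have h1 : (⟨i, e ∘ q⟩ : Tup a K') = ⟨i', e ∘ q'⟩ := h
  rw [Sigma.mk.injEq] at h1
  obtain ⟨rfl, h2⟩ := h1
  have h3 : e ∘ q = e ∘ q' := eq_of_heq h2
  have h4 : q = q' := by
    funext u
    exact he (hp u) (hp' u) (congrFun h3 u)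
  rw [h4]

/-- what a false negative clause says -/
private theorem axn_val (hEXD : St_EXD) {I J K N K' : Type} [Fintype K] [DecidableEq K]
    (a : I → ℕ) (b : J → ℕ) (C : Circ (Tup a K × Tup b K) N) (r : ℕ) (S : N → Finset K)
    (f : Tup a K' ≃ Tup b K') (v : N → (K → K') → Bool) (hS : Supp C r S) (hV : Val C S f v)
    (hr : r + 2 ≤ Fintype.card K) (hB : Big (2 * r) K') (g : N) (x x' : Tup a K × Tup b K)
    (hne : x ≠ x') (hg : IsClause C g {(x, false), (x', false)}) (e : K → K')
    (he : InjOn e (S g)) (hv : v g e ≠ true) : f (x.1.map a e) = x.2.map b e := by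
  obtain ⟨hp1, hp2⟩ := axn_pts a b C r S hS hr g x x' hne hg
  obtain ⟨T, hT, hT1, hT2⟩ := hg
  obtain ⟨h₁, hh₁, hlit⟩ := hT2 (x, false) (Or.inl rfl)
  rcases hlit with ⟨h0, -⟩ | ⟨-, h₂, hn, hvar⟩
  · exact absurd h0 (by simp)
  have hBig : Big (S g ∪ S h₁).card K' := by
    obtain ⟨j, hj⟩ := hB
    have hle : (S g ∪ S h₁).card ≤ 2 * r := by
      have h1 := Finset.card_union_le (S g) (S h₁)
      have h2 := hS.card g
      have h3 := hS.card h₁
      omega
    exact ⟨j ∘ Fin.castLE hle, hj.comp (Fin.castLE_injective hle)⟩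
  obtain ⟨e₁, he₁, hinj⟩ := hEXD K K' (S g) (S g ∪ S h₁) e Finset.subset_union_left he hBig
  have hv1 : v h₁ e₁ ≠ true := by
    intro h
    apply hv
    rw [hV.big g e true T hT]
    exact ⟨h₁, hh₁, e₁, he₁, hinj, h⟩
  have hv2 : v h₂ e₁ = true := by
    have h := hV.neg h₁ e₁ h₂ hn
    rw [h] at hv1
    simpa using hv1
  rw [hV.var h₂ e₁ x.1 x.2 hvar] at hv2
  rw [axn_map_congr a e e₁ x.1 (fun u => (he₁ _ (hp1 u)).symm), hv2]
  exact axn_map_congr b e₁ e x.2 (fun u => he₁ _ (hp2 u))

/-- [AXN] the negative clauses are valid. -/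
theorem thm_AXN (hEXD : St_EXD) : St_AXN := by
  intro I J K N K' _ _ a b C r S f v hS hV hr hB
  constructor
  · intro g p p' h hne hg e he
    by_contra hv
    have hxx : ((p, h) : Tup a K × Tup b K) ≠ (p', h) := fun h1 => hne (congrArg Prod.fst h1)
    have hg' : IsClause C g {((p', h), false), ((p, h), false)} := by
      rw [Set.pair_comm]
      exact hg
    have h1 := axn_val hEXD a b C r S f v hS hV hr hB g (p, h) (p', h) hxx hg e he hv
    have h2 := axn_val hEXD a b C r S f v hS hV hr hB g (p', h) (p, h) hxx.symm hg' e he hv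
    obtain ⟨hp, -⟩ := axn_pts a b C r S hS hr g (p, h) (p', h) hxx hg
    obtain ⟨hp', -⟩ := axn_pts a b C r S hS hr g (p', h) (p, h) hxx.symm hg'
    apply hne
    apply axn_map_inj a e (S g) he p p' hp hp'
    apply f.injective
    rw [h1, h2]
  · intro g p h h' hne hg e he
    by_contra hv
    have hxx : ((p, h) : Tup a K × Tup b K) ≠ (p, h') := fun h1 => hne (congrArg Prod.snd h1)
    have hg' : IsClause C g {((p, h'), false), ((p, h), false)} := by
      rw [Set.pair_comm]
      exact hg
    have h1 := axn_val hEXD a b C r S f v hS hV hr hB g (p, h) (p, h') hxx hg e he hv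
    have h2 := axn_val hEXD a b C r S f v hS hV hr hB g (p, h') (p, h) hxx.symm hg' e he hv
    obtain ⟨-, hp⟩ := axn_pts a b C r S hS hr g (p, h) (p, h') hxx hg
    obtain ⟨-, hp'⟩ := axn_pts a b C r S hS hr g (p, h') (p, h) hxx.symm hg'
    apply hne
    apply axn_map_inj b e (S g) he h h' hp hp'
    simp only at h1 h2
    rw [← h1, ← h2]

end Pool.Agent.SYR
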