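import Pool.Agent.SYR.St

/-!
# SYR AXP: the positive clauses are valid
-/

set_option autoImplicit false
set_option linter.unusedVariables false

namespace Pool.Agent.SYR

open Set

theorem axp_big {q q' : ℕ} {K' : Type} (h : Big q K') (hq : q' ≤ q) : Big q' K' := by
  obtain ⟨j, hj⟩ := h
  exact ⟨fun x => j (Fin.castLE hq x), fun x y hxy => Fin.castLE_injective hq (hj hxy)⟩

/-- lifting of tuples -/
theorem axp_lift {K K' : Type} [Fintype K] [DecidableEq K] (S : Finset K) (e : K → K')
    (he : InjOn e S) : ∀ (m : ℕ) (y' : Fin m → K'), S.card + m ≤ Fintype.card K →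
    ∃ (y : Fin m → K) (D : Finset K) (e₀ : K → K'), S ⊆ D ∧ (∀ x ∈ S, e₀ x = e x) ∧
      InjOn e₀ D ∧ (∀ w, y w ∈ D) ∧ (∀ w, e₀ (y w) = y' w) ∧ D.card ≤ S.card + m := by
  intro m
  induction m with
  | zero =>
    intro y' _
    exact ⟨fun w => w.elim0, S, e, subset_rfl, fun _ _ => rfl, he, fun w => w.elim0,
      fun w => w.elim0, le_rfl⟩
  | succ m ih =>
    intro y' hm
    obtain ⟨y, D, e₀, h1, h2, h3, h4, h5, h6⟩ := ih (fun w => y' w.succ) (by omega)
    by_cases hx : ∃ x ∈ D, e₀ x = y' 0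
    · obtain ⟨x, hxD, hxe⟩ := hx
      refine ⟨Fin.cons x y, D, e₀, h1, h2, h3, fun w => ?_, fun w => ?_, by omega⟩
      · refine Fin.cases ?_ (fun w => ?_) w
        · rw [Fin.cons_zero]
          exact hxD
        · rw [Fin.cons_succ]
          exact h4 w
      · refine Fin.cases ?_ (fun w => ?_) w
        · rw [Fin.cons_zero]
          exact hxe
        · rw [Fin.cons_succ]
          exact h5 w
    · push Not at hx
      obtain ⟨z, hz⟩ : ∃ z, z ∉ D := by
        by_contra hcon
        push Not at hcon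
        have : D = Finset.univ := Finset.eq_univ_iff_forall.2 hcon
        rw [this, Finset.card_univ] at h6
        omega
      have hne : ∀ x ∈ D, Function.update e₀ z (y' 0) x = e₀ x := fun x hxD => by
        rw [Function.update_of_ne]
        rintro rfl
        exact hz hxD
      refine ⟨Fin.cons z y, insert z D, Function.update e₀ z (y' 0),
        h1.trans (Finset.subset_insert _ _), fun x hxS => ?_, ?_, fun w => ?_, fun w => ?_, ?_⟩
      · rw [hne x (h1 hxS), h2 x hxS]
      · intro x hx1 x' hx2 hxx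
        rw [Finset.mem_coe, Finset.mem_insert] at hx1 hx2
        rcases hx1 with rfl | hx1 <;> rcases hx2 with rfl | hx2
        · rfl
        · rw [Function.update_self, hne x' hx2] at hxx
          exact absurd hxx.symm (hx x' hx2)
        · rw [Function.update_self, hne x hx1] at hxx
          exact absurd hxx (hx x hx1)
        · rw [hne x hx1, hne x' hx2] at hxx
          exact h3 (Finset.mem_coe.2 hx1) (Finset.mem_coe.2 hx2) hxx
      · refine Fin.cases ?_ (fun w => ?_) w
        · rw [Fin.cons_zero]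
          exact Finset.mem_insert_self _ _
        · rw [Fin.cons_succ]
          exact Finset.mem_insert_of_mem (h4 w)
      · refine Fin.cases ?_ (fun w => ?_) w
        · rw [Fin.cons_zero, Function.update_self]
        · rw [Fin.cons_succ, hne _ (h4 w)]
          exact h5 w
      · exact (Finset.card_insert_le _ _).trans (by omega)

/-- a permutation which moves a point outside the support and respects the clause -/
theorem axp_fix {I J K N : Type} [Fintype K] [DecidableEq K] {a : I → ℕ} {b : J → ℕ}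
    {C : Circ (Tup a K × Tup b K) N} {r : ℕ} {S : N → Finset K} (hS : Supp C r S)
    (hr : 3 * r ≤ Fintype.card K) (hr2 : (2 : ℕ) + r ≤ Fintype.card K) {g : N} {T : Set N}
    (hg : C.lab g = .big true T)
    (Vs : Set (Tup a K × Tup b K)) (h1 : ∀ h ∈ T, ∃ x ∈ Vs, C.lab h = .var x)
    (h2 : ∀ x ∈ Vs, ∃ h ∈ T, C.lab h = .var x) (x₀ : Tup a K × Tup b K) (hx₀ : x₀ ∈ Vs) (c : K)
    (hc : c ∉ S g) : ∃ σ : Equiv.Perm K, σ c ≠ c ∧ (x₀.1.map a σ, x₀.2.map b σ) ∈ Vs := by
  have hcard := hS.card g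
  obtain ⟨d, hd⟩ : ∃ d, d ∉ insert c (S g) := by
    by_contra hcon
    push Not at hcon
    have h3 : insert c (S g) = Finset.univ := Finset.eq_univ_iff_forall.2 hcon
    have h4 := Finset.card_insert_le c (S g)
    rw [h3, Finset.card_univ] at h4
    omega
  obtain ⟨l, hl⟩ : ∃ l, l ∉ insert d (insert c (S g)) := by
    by_contra hcon
    push Not at hcon
    have h3 : insert d (insert c (S g)) = Finset.univ := Finset.eq_univ_iff_forall.2 hcon
    have h4 := Finset.card_insert_le d (insert c (S g))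
    have h5 := Finset.card_insert_le c (S g)
    rw [h3, Finset.card_univ] at h4
    omega
  rw [Finset.mem_insert, not_or] at hd hl
  rw [Finset.mem_insert, not_or] at hl
  obtain ⟨hdc, hdS⟩ := hd
  obtain ⟨hld, hlc, hlS⟩ := hl
  obtain ⟨τ, hτ, hτg⟩ := hS.mem g (Equiv.swap c d * Equiv.swap d l) (by
      rw [Equiv.Perm.sign_mul, Equiv.Perm.sign_swap (Ne.symm hdc),
        Equiv.Perm.sign_swap (Ne.symm hld)]
      rfl) (by
      intro x hx
      have e1 : x ≠ c := fun h => hc (h ▸ hx)
      have e2 : x ≠ d := fun h => hdS (h ▸ hx)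
      have e3 : x ≠ l := fun h => hlS (h ▸ hx)
      rw [Equiv.Perm.mul_apply, Equiv.swap_apply_of_ne_of_ne e2 e3,
        Equiv.swap_apply_of_ne_of_ne e1 e2])
  refine ⟨Equiv.swap c d * Equiv.swap d l, ?_, ?_⟩
  · rw [Equiv.Perm.mul_apply, Equiv.swap_apply_of_ne_of_ne (Ne.symm hdc) (Ne.symm hlc),
      Equiv.swap_apply_left]
    exact hdc
  · have h3 := hτ g
    rw [hτg, hg] at h3
    have h4 : T = τ '' T := by
      simpa only [Lab.map, Lab.big.injEq, true_and] using h3
    obtain ⟨h, hh, hlab⟩ := h2 x₀ hx₀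
    have h5 : τ h ∈ T := by
      rw [h4]
      exact ⟨h, hh, rfl⟩
    obtain ⟨x, hx, hxl⟩ := h1 _ h5
    have h6 := hτ h
    rw [hxl, hlab] at h6
    have h7 : x = (x₀.1.map a (Equiv.swap c d * Equiv.swap d l),
        x₀.2.map b (Equiv.swap c d * Equiv.swap d l)) := by
      simpa only [Lab.map, Lab.var.injEq] using h6
    rw [← h7]
    exact hx

theorem axp_map_eq {I K : Type} {a : I → ℕ} {p : Tup a K} {σ : K → K} (h : p.map a σ = p)
    (u : Fin (a p.1)) : σ (p.2 u) = p.2 u := by
  obtain ⟨i, x⟩ := p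
  have h1 : (⟨i, σ ∘ x⟩ : Tup a K) = ⟨i, x⟩ := h
  rw [Sigma.mk.injEq] at h1
  exact congrFun (eq_of_heq h1.2) u

theorem thm_AXP (hEXD : St_EXD) : St_AXP := by
  intro I J K N K' _ _ a b C r S f v hS hv ha hb hr hB
  have hr0 : ∀ g : N, 0 < r := fun g => (Nat.zero_le _).trans_lt (hS.card g)
  constructor
  · intro g p hg e he
    obtain ⟨T, hT, hT1, hT2⟩ := hg
    have hrp := hr0 g
    have h1 : ∀ h ∈ T, ∃ x ∈ {x : Tup a K × Tup b K | x.1 = p}, C.lab h = .var x := by
      intro h hh
      obtain ⟨l, ⟨h', rfl⟩, hl⟩ := hT1 h hh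
      rcases hl with hl | hl
      · exact ⟨(p, h'), rfl, hl.2⟩
      · exact absurd hl.1 (by simp)
    have h2 : ∀ x ∈ {x : Tup a K × Tup b K | x.1 = p}, ∃ h ∈ T, C.lab h = .var x := by
      rintro ⟨p', h'⟩ hx
      have hx : p' = p := hx
      subst hx
      obtain ⟨h, hh, hl⟩ := hT2 ((p', h'), true) ⟨h', rfl⟩
      rcases hl with hl | hl
      · exact ⟨h, hh, hl.2⟩
      · exact absurd hl.1 (by simp)
    rcases hfp : f (p.map a e) with ⟨j, y'⟩
    obtain ⟨k₀⟩ : Nonempty K := Fintype.card_pos_iff.1 (by omega)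
    have hsup : ∀ u, p.2 u ∈ S g := by
      intro u
      by_contra hc
      have hr2 : (2 : ℕ) + r ≤ Fintype.card K := by omega
      obtain ⟨σ, hσ1, hσ2⟩ := axp_fix hS hr hr2 hT _ h1 h2 (p, ⟨j, fun _ => k₀⟩) rfl (p.2 u) hc
      exact hσ1 (axp_map_eq hσ2 u)
    obtain ⟨y, D, e₀, a1, a2, a3, a4, a5, a6⟩ := axp_lift (S g) e he (b j) y' (by
      have := hS.card g
      have := hb j
      omega)
    obtain ⟨h₁, hh₁, hlab⟩ := h2 (p, ⟨j, y⟩) rfl
    obtain ⟨e', b1, b2⟩ := hEXD K K' D (D ∪ S h₁) e₀ Finset.subset_union_left a3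
      (axp_big hB (by
        have := Finset.card_union_le D (S h₁)
        have := hS.card g
        have := hS.card h₁
        have := hb j
        omega))
    refine (hv.big g e true T hT).2 ⟨h₁, hh₁, e', fun x hx => ?_, ?_, ?_⟩
    · rw [b1 x (a1 hx), a2 x hx]
    · refine b2.mono ?_
      rw [Finset.coe_subset]
      exact Finset.union_subset_union_left a1
    · rw [hv.var h₁ e' p ⟨j, y⟩ hlab]
      have c1 : p.map a e' = p.map a e := by
        unfold Tup.map
        congr 1
        funext u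
        exact (b1 _ (a1 (hsup u))).trans (a2 _ (hsup u))
      have c2 : Tup.map b e' (⟨j, y⟩ : Tup b K) = ⟨j, y'⟩ := by
        unfold Tup.map
        congr 1
        funext w
        exact (b1 _ (a4 w)).trans (a5 w)
      rw [c1, c2]
      exact hfp
  · intro g h hg e he
    obtain ⟨T, hT, hT1, hT2⟩ := hg
    have hrp := hr0 g
    have h1 : ∀ h' ∈ T, ∃ x ∈ {x : Tup a K × Tup b K | x.2 = h}, C.lab h' = .var x := by
      intro h' hh
      obtain ⟨l, ⟨p, rfl⟩, hl⟩ := hT1 h' hh
      rcases hl with hl | hl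
      · exact ⟨(p, h), rfl, hl.2⟩
      · exact absurd hl.1 (by simp)
    have h2 : ∀ x ∈ {x : Tup a K × Tup b K | x.2 = h}, ∃ h' ∈ T, C.lab h' = .var x := by
      rintro ⟨p, h'⟩ hx
      have hx : h' = h := hx
      subst hx
      obtain ⟨h'', hh, hl⟩ := hT2 ((p, h'), true) ⟨p, rfl⟩
      rcases hl with hl | hl
      · exact ⟨h'', hh, hl.2⟩
      · exact absurd hl.1 (by simp)
    rcases hfp : f.symm (h.map b e) with ⟨i, x'⟩
    obtain ⟨k₀⟩ : Nonempty K := Fintype.card_pos_iff.1 (by omega)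
    have hsup : ∀ u, h.2 u ∈ S g := by
      intro u
      by_contra hc
      have hr2 : (2 : ℕ) + r ≤ Fintype.card K := by omega
      obtain ⟨σ, hσ1, hσ2⟩ := axp_fix hS hr hr2 hT _ h1 h2 (⟨i, fun _ => k₀⟩, h) rfl (h.2 u) hc
      exact hσ1 (axp_map_eq hσ2 u)
    obtain ⟨x, D, e₀, a1, a2, a3, a4, a5, a6⟩ := axp_lift (S g) e he (a i) x' (by
      have := hS.card g
      have := ha i
      omega)
    obtain ⟨h₁, hh₁, hlab⟩ := h2 (⟨i, x⟩, h) rfl
    obtain ⟨e', b1, b2⟩ := hEXD K K' D (D ∪ S h₁) e₀ Finset.subset_union_left a3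
      (axp_big hB (by
        have := Finset.card_union_le D (S h₁)
        have := hS.card g
        have := hS.card h₁
        have := ha i
        omega))
    refine (hv.big g e true T hT).2 ⟨h₁, hh₁, e', fun x hx => ?_, ?_, ?_⟩
    · rw [b1 x (a1 hx), a2 x hx]
    · refine b2.mono ?_
      rw [Finset.coe_subset]
      exact Finset.union_subset_union_left a1
    · rw [hv.var h₁ e' ⟨i, x⟩ h hlab]
      have c1 : h.map b e' = h.map b e := by
        unfold Tup.map
        congr 1
        funext u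
        exact (b1 _ (a1 (hsup u))).trans (a2 _ (hsup u))
      have c2 : Tup.map a e' (⟨i, x⟩ : Tup a K) = ⟨i, x'⟩ := by
        unfold Tup.map
        congr 1
        funext w
        exact (b1 _ (a4 w)).trans (a5 w)
      rw [c1, c2, ← hfp, Equiv.apply_symm_apply]

end Pool.Agent.SYR
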