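import Pool.Agent.SYR.St

/-!
# SYR/EXD: extension of injections (helper42, after the plan of helper79)
-/

set_option autoImplicit false
set_option linter.unusedVariables false

namespace Pool.Agent.SYR

open Set

/-- a new value -/
theorem exd_new (K K' : Type) (D : Finset K) (e : K → K') (h : Big (D.card + 1) K') : ∃ y, ∀ x ∈ D, e x ≠ y := by
  classical
  obtain ⟨j, hj⟩ := h
  by_contra hno
  push Not at hno
  have h1 : (Finset.univ : Finset (Fin (D.card + 1))).image j ⊆ D.image e := by
    intro y hy
    obtain ⟨x, hx, hxy⟩ := hno y
    exact Finset.mem_image.2 ⟨x, hx, hxy⟩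
  have h2 := Finset.card_le_card h1
  rw [Finset.card_image_of_injective _ hj, Finset.card_univ, Fintype.card_fin] at h2
  have h3 := h2.trans Finset.card_image_le
  omega

theorem thm_EXD : St_EXD := by
  intro K K' _ D D' e hD he hB
  suffices H : ∀ E : Finset K, Disjoint D E → Big (D ∪ E).card K' →
      ∃ e' : K → K', (∀ x ∈ D, e' x = e x) ∧ InjOn e' (D ∪ E : Finset K) by
    have h1 : D ∪ (D' \ D) = D' := Finset.union_sdiff_of_subset hD
    obtain ⟨e', h2, h3⟩ := H (D' \ D) Finset.disjoint_sdiff (by rw [h1]; exact hB)
    rw [h1] at h3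
    exact ⟨e', h2, h3⟩
  intro E
  induction E using Finset.induction_on with
  | empty =>
    intro _ _
    refine ⟨e, fun x _ => rfl, ?_⟩
    rw [Finset.union_empty]
    exact he
  | insert x E hx ih =>
    intro hdis hbig
    rw [Finset.disjoint_insert_right] at hdis
    have hx' : x ∉ D ∪ E := by
      rw [Finset.mem_union]
      rintro (h | h)
      · exact hdis.1 h
      · exact hx h
    rw [Finset.union_insert, Finset.card_insert_of_notMem hx'] at hbig
    have hbig' : Big (D ∪ E).card K' := by
      obtain ⟨j, hj⟩ := hbig
      exact ⟨fun i => j (Fin.castSucc i), fun a b h => Fin.castSucc_injective _ (hj h)⟩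
    obtain ⟨e', h1, h2⟩ := ih hdis.2 hbig'
    obtain ⟨y, hy⟩ := exd_new K K' (D ∪ E) e' hbig
    refine ⟨Function.update e' x y, ?_, ?_⟩
    · intro z hz
      have hzx : z ≠ x := fun h => hdis.1 (h ▸ hz)
      rw [Function.update_of_ne hzx]
      exact h1 z hz
    · rw [Finset.union_insert]
      intro a ha b hb hab
      rw [Finset.mem_coe, Finset.mem_insert] at ha hb
      rcases ha with ha | ha
      · rcases hb with hb | hb
        · rw [ha, hb]
        · exfalso
          have hbx : b ≠ x := fun h => hx' (h ▸ hb)
          rw [ha, Function.update_self, Function.update_of_ne hbx] at hab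
          exact hy b hb hab.symm
      · have hax : a ≠ x := fun h => hx' (h ▸ ha)
        rcases hb with hb | hb
        · exfalso
          rw [hb, Function.update_self, Function.update_of_ne hax] at hab
          exact hy a ha hab
        · have hbx : b ≠ x := fun h => hx' (h ▸ hb)
          rw [Function.update_of_ne hax, Function.update_of_ne hbx] at hab
          exact h2 (Finset.mem_coe.2 ha) (Finset.mem_coe.2 hb) hab

end Pool.Agent.SYR
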