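import Pool.Agent.SYR.St

/-!
# SYR/EXT (helper41): extensions on top of any small set
-/

set_option autoImplicit false

namespace Pool.Agent.SYR

open Set

/-- an even permutation with prescribed values -/
theorem ext_perm {K : Type} [Fintype K] [DecidableEq K] (A : Finset K) (ι : {x // x ∈ A} → K)
    (hι : Function.Injective ι) (hA : A.card + 2 ≤ Fintype.card K) :
    ∃ σ : Equiv.Perm K, Equiv.Perm.sign σ = 1 ∧ ∀ x : {x // x ∈ A}, σ x = ι x := by
  classical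
  let e : {x // x ∈ A} ≃ {y // y ∈ Set.range ι} := Equiv.ofInjective ι hι
  let σ₀ : Equiv.Perm K := e.extendSubtype
  have h0 : ∀ x : {x // x ∈ A}, σ₀ x = ι x := by
    intro x
    change e.extendSubtype (x : K) = ι x
    rw [Equiv.extendSubtype_apply_of_mem e (x : K) x.2]
    rfl
  rcases Int.units_eq_one_or (Equiv.Perm.sign σ₀) with hs | hs
  · exact ⟨σ₀, hs, h0⟩
  · have hc : 1 < (Aᶜ).card := by
      rw [Finset.card_compl]
      omega
    obtain ⟨z₁, hz₁, z₂, hz₂, hz⟩ := Finset.one_lt_card.1 hc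
    rw [Finset.mem_compl] at hz₁ hz₂
    refine ⟨σ₀ * Equiv.swap z₁ z₂, ?_, ?_⟩
    · rw [Equiv.Perm.sign_mul, hs, Equiv.Perm.sign_swap hz]
      rfl
    · intro x
      rw [Equiv.Perm.mul_apply, Equiv.swap_apply_of_ne_of_ne, h0 x]
      · intro h
        exact hz₁ (h ▸ x.2)
      · intro h
        exact hz₂ (h ▸ x.2)

/-- the permutation of the proof -/
theorem ext_sigma {K K' : Type} [Fintype K] [DecidableEq K] (D Sg Sh : Finset K) (r : ℕ)
    (e e'' : K → K') (hSD : Sg ⊆ D) (hr : Sh.card < r)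
    (hc : D.card + r + 2 ≤ Fintype.card K) (h1 : ∀ x ∈ Sg, e'' x = e x)
    (h2 : InjOn e'' (Sg ∪ Sh : Finset K)) :
    ∃ σ : Equiv.Perm K, Equiv.Perm.sign σ = 1 ∧ (∀ x ∈ Sg, σ x = x) ∧
      ∀ x ∈ Sh, x ∉ Sg → (σ x ∈ D → e (σ x) = e'' x) ∧ (σ x ∉ D → ∀ d ∈ D, e d ≠ e'' x) := by
  classical
  let B0 : Finset K := Sh.filter fun x => ¬ ∃ d ∈ D, e d = e'' x
  have hB0 : B0.card ≤ Sh.card := Finset.card_filter_le _ _
  have hcard : Fintype.card {x // x ∈ B0} ≤ Fintype.card {y // y ∉ D} := by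
    rw [Fintype.card_coe, Fintype.card_subtype_compl, Fintype.card_coe]
    omega
  obtain ⟨j⟩ := Function.Embedding.nonempty_of_card_le hcard
  let ι : {x // x ∈ Sg ∪ Sh} → K := fun x =>
    if x.1 ∈ Sg then x.1 else if h : ∃ d ∈ D, e d = e'' x.1 then h.choose
    else if h' : x.1 ∈ B0 then (j ⟨x.1, h'⟩ : K) else x.1
  have i1 : ∀ x : {x // x ∈ Sg ∪ Sh}, x.1 ∈ Sg → ι x = x.1 := fun x hx => if_pos hx
  have i2 : ∀ x : {x // x ∈ Sg ∪ Sh}, x.1 ∉ Sg → (∃ d ∈ D, e d = e'' x.1) →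
      ι x ∈ D ∧ e (ι x) = e'' x.1 := by
    intro x hx hd
    have h3 : ι x = hd.choose := by
      change (if x.1 ∈ Sg then x.1 else _) = _
      rw [if_neg hx, dif_pos hd]
    rw [h3]
    exact hd.choose_spec
  have i3 : ∀ x : {x // x ∈ Sg ∪ Sh}, x.1 ∉ Sg → (¬ ∃ d ∈ D, e d = e'' x.1) →
      ∃ hb : x.1 ∈ B0, ι x = (j ⟨x.1, hb⟩ : K) := by
    intro x hx hd
    have hb : x.1 ∈ B0 := by
      have h3 := x.2
      rw [Finset.mem_union] at h3
      exact Finset.mem_filter.2 ⟨h3.resolve_left hx, hd⟩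
    refine ⟨hb, ?_⟩
    change (if x.1 ∈ Sg then x.1 else _) = _
    rw [if_neg hx, dif_neg hd, dif_pos hb]
  have i4 : ∀ x : {x // x ∈ Sg ∪ Sh}, x.1 ∉ Sg → ι x ∉ Sg := by
    intro x hx hi
    by_cases hd : ∃ d ∈ D, e d = e'' x.1
    · obtain ⟨h3, h4⟩ := i2 x hx hd
      rw [← h1 _ hi] at h4
      have h5 := h2 (Finset.mem_coe.2 (Finset.mem_union_left _ hi)) (Finset.mem_coe.2 x.2) h4
      rw [h5] at hi
      exact hx hi
    · obtain ⟨hb, h3⟩ := i3 x hx hd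
      rw [h3] at hi
      exact (j ⟨x.1, hb⟩).2 (hSD hi)
  have hι : Function.Injective ι := by
    intro x y hxy
    by_cases hx : x.1 ∈ Sg
    · by_cases hy : y.1 ∈ Sg
      · rw [i1 x hx, i1 y hy] at hxy
        exact Subtype.ext hxy
      · rw [i1 x hx] at hxy
        exact absurd (hxy ▸ hx) (i4 y hy)
    · by_cases hy : y.1 ∈ Sg
      · rw [i1 y hy] at hxy
        exact absurd (hxy ▸ hy) (i4 x hx)
      · by_cases dx : ∃ d ∈ D, e d = e'' x.1
        · obtain ⟨h3, h4⟩ := i2 x hx dx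
          by_cases dy : ∃ d ∈ D, e d = e'' y.1
          · obtain ⟨h5, h6⟩ := i2 y hy dy
            rw [hxy, h6] at h4
            exact Subtype.ext (h2 (Finset.mem_coe.2 x.2) (Finset.mem_coe.2 y.2) h4.symm)
          · obtain ⟨hb, h5⟩ := i3 y hy dy
            rw [hxy, h5] at h3
            exact absurd h3 (j ⟨y.1, hb⟩).2
        · obtain ⟨hb, h3⟩ := i3 x hx dx
          by_cases dy : ∃ d ∈ D, e d = e'' y.1
          · obtain ⟨h5, h6⟩ := i2 y hy dy
            rw [← hxy, h3] at h5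
            exact absurd h5 (j ⟨x.1, hb⟩).2
          · obtain ⟨hb', h5⟩ := i3 y hy dy
            rw [h3, h5] at hxy
            have h6 := j.injective (Subtype.ext hxy)
            exact Subtype.ext (Subtype.mk.inj h6)
  have hAc : (Sg ∪ Sh).card + 2 ≤ Fintype.card K := by
    have h3 := Finset.card_union_le Sg Sh
    have h4 := Finset.card_le_card hSD
    omega
  obtain ⟨σ, hσ, hσι⟩ := ext_perm (Sg ∪ Sh) ι hι hAc
  refine ⟨σ, hσ, ?_, ?_⟩
  · intro x hx
    have h3 := hσι ⟨x, Finset.mem_union_left _ hx⟩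
    rw [i1 _ hx] at h3
    exact h3
  · intro x hx hxg
    have h3 := hσι ⟨x, Finset.mem_union_right _ hx⟩
    simp only at h3
    rw [h3]
    by_cases hd : ∃ d ∈ D, e d = e'' x
    · obtain ⟨h4, h5⟩ := i2 ⟨x, Finset.mem_union_right _ hx⟩ hxg hd
      exact ⟨fun _ => h5, fun h6 => absurd h4 h6⟩
    · obtain ⟨hb, h4⟩ := i3 ⟨x, Finset.mem_union_right _ hx⟩ hxg hd
      refine ⟨fun h5 => ?_, fun _ d hdD h6 => hd ⟨d, hdD, h6⟩⟩
      rw [h4] at h5
      exact absurd h5 (j ⟨x, hb⟩).2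

theorem thm_EXT : St_EXT := by
  classical
  intro I J K N K' _ _ a b C r S f v hS hV hI g c T D e hg hSD he hcard hv
  obtain ⟨h', hT, e'', h1, h2, h3⟩ := (hV.big g e c T hg).1 hv
  have h1' : ∀ x ∈ S g, e'' x = e x := h1
  obtain ⟨σ, hσ, hσ1, hσ2⟩ := ext_sigma D (S g) (S h') r e e'' hSD (hS.card h') hcard h1'
    h2
  obtain ⟨τ, hτ, hτg⟩ := hS.mem g σ hσ hσ1
  have hTT : τ '' T = T := by
    have h4 := hτ g
    rw [hτg, hg] at h4
    change Lab.big c T = Lab.big c (τ '' T) at h4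
    injection h4 with _ h5
    exact h5.symm
  have hSh : S (τ h') = (S h').map σ.toEmbedding := hS.eqv σ τ h' hτ
  let e' : K → K' := fun y => if y ∈ D then e y else e'' (σ.symm y)
  have e1 : ∀ y ∈ D, e' y = e y := fun y hy => if_pos hy
  have e2 : ∀ x ∈ S h', e' (σ x) = e'' x := by
    intro x hx
    by_cases hD : σ x ∈ D
    · rw [e1 _ hD]
      by_cases hxg : x ∈ S g
      · rw [hσ1 x hxg, h1' x hxg]
      · exact (hσ2 x hx hxg).1 hD
    · change (if σ x ∈ D then e (σ x) else e'' (σ.symm (σ x))) = _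
      rw [if_neg hD, Equiv.symm_apply_apply]
  have e3 : ∀ x ∈ S h', σ x ∉ D → ∀ d ∈ D, e d ≠ e'' x := by
    intro x hx hD
    have hxg : x ∉ S g := by
      intro hxg
      rw [hσ1 x hxg] at hD
      exact hD (hSD hxg)
    exact (hσ2 x hx hxg).2 hD
  refine ⟨τ h', ?_, e', e1, ?_, ?_⟩
  · rw [← hTT]
    exact ⟨h', hT, rfl⟩
  · have hm : ∀ y, y ∈ D ∪ S (τ h') → y ∈ D ∨ (y ∉ D ∧ ∃ x ∈ S h', σ x = y) := by
      intro y hy
      by_cases hD : y ∈ D
      · exact Or.inl hD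
      · right
        refine ⟨hD, ?_⟩
        have h4 := (Finset.mem_union.1 hy).resolve_left hD
        rw [hSh, Finset.mem_map] at h4
        exact h4
    intro y₁ hy₁ y₂ hy₂ hyy
    have m1 := hm y₁ (Finset.mem_coe.1 hy₁)
    have m2 := hm y₂ (Finset.mem_coe.1 hy₂)
    rcases m1 with m1 | ⟨m1, x₁, hx₁, rfl⟩
    · rcases m2 with m2 | ⟨m2, x₂, hx₂, rfl⟩
      · rw [e1 _ m1, e1 _ m2] at hyy
        exact he m1 m2 hyy
      · rw [e1 _ m1, e2 x₂ hx₂] at hyy
        exact absurd hyy (e3 x₂ hx₂ m2 y₁ m1)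
    · rcases m2 with m2 | ⟨m2, x₂, hx₂, rfl⟩
      · rw [e1 _ m2, e2 x₁ hx₁] at hyy
        exact absurd hyy.symm (e3 x₁ hx₁ m1 y₂ m2)
      · rw [e2 x₁ hx₁, e2 x₂ hx₂] at hyy
        have h5 : x₁ = x₂ := h2 (by
          rw [Finset.mem_coe]; exact Finset.mem_union_right _ hx₁) (by
          rw [Finset.mem_coe]; exact Finset.mem_union_right _ hx₂) hyy
        rw [h5]
  · have h4 : v (τ h') e' = v (τ h') (e'' ∘ σ.symm) := by
      refine hI.1 (τ h') e' (e'' ∘ σ.symm) ?_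
      intro y hy
      rw [hSh, Finset.mem_map] at hy
      obtain ⟨x, hx, rfl⟩ := hy
      change e' (σ x) = e'' (σ.symm (σ x))
      rw [e2 x hx, Equiv.symm_apply_apply]
    rw [h4, hI.2 σ τ h' e'' hτ]
    exact h3

end Pool.Agent.SYR
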