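import Pool.Agent.SYR.St

/-!
# SYR/FIN: the theorem (assembly)
-/

set_option autoImplicit false
set_option linter.unusedVariables false

namespace Pool.Agent.SYR

open Set

theorem fin_big_mono {q q' : ℕ} (h : q ≤ q') {K' : Type} (hB : Big q' K') : Big q K' := by
  obtain ⟨j, hj⟩ := hB
  exact ⟨fun i => j (Fin.castLE h i), fun x y hxy => Fin.castLE_injective h (hj hxy)⟩

theorem thm_FIN (hSUP : St_SUP) (hVAL : St_VAL) (hIND : St_IND) (hEXD : St_EXD) (hSND : St_SND)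
    (hAXP : St_AXP) (hAXN : St_AXN) : St_FIN := by
  intro I J K N _ _ a b C t r hr ha hb hK1 hK2 hK' hRef
  classical
  obtain ⟨K', hBig, ⟨f⟩⟩ := hK'
  by_contra hcon
  push Not at hcon
  obtain ⟨S, hS⟩ := hSUP I J K N a b C r hr hK1 hcon
  obtain ⟨v, hv⟩ := hVAL I J K N K' a b C S f
  have h1 : r + 2 ≤ Fintype.card K := by nlinarith
  have h3 : 3 * r ≤ (2 * t + 3) * r := Nat.mul_le_mul_right r (by omega)
  have h2 : 2 * r ≤ (2 * t + 3) * r := Nat.mul_le_mul_right r (by omega)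
  have hInv : Inv C S v := hIND I J K N K' a b C r S f v hS h1 hv
  obtain ⟨hP1, hP2⟩ := hAXP I J K N K' a b C r S f v hS hv ha hb (h3.trans hK2)
    (fin_big_mono h3 hBig)
  obtain ⟨hN1, hN2⟩ := hAXN I J K N K' a b C r S f v hS hv h1 (fin_big_mono h2 hBig)
  obtain ⟨g, hg, hL⟩ := hRef
  have hval := hSND I J K N K' a b C r S f v hS hv hInv t (Php (Tup a K) (Tup b K)) hK2 hBig
    (by
      intro g c hc hcl e he
      rcases hc with ⟨p, rfl⟩ | ⟨h, rfl⟩ | ⟨p, p', h, hne, rfl⟩ | ⟨p, h, h', hne, rfl⟩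
      · exact hP1 g p hcl e he
      · exact hP2 g h hcl e he
      · exact hN1 g p p' h hne hcl e he
      · exact hN2 g p h h' hne hcl e he) g hL
  have hcard : (S g).card ≤ (2 * t + 3) * r := by
    have h4 := hS.card g
    nlinarith
  have hpos : 0 < (2 * t + 3) * r := by positivity
  obtain ⟨j, hj⟩ := hBig
  let e0 : K → K' := fun _ => j ⟨0, hpos⟩
  obtain ⟨e, _, he⟩ := hEXD K K' ∅ (S g) e0 (Finset.empty_subset _) (by simp)
    (fin_big_mono hcard ⟨j, hj⟩)
  have h5 := hval e he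
  rw [hv.big g e true ∅ hg] at h5
  obtain ⟨h, hh, _⟩ := h5
  exact hh

end Pool.Agent.SYR
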