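import Pool.Agent.SYR.St

/-!
# SYR/GAM (helper79): local contradictions do not happen
-/

set_option autoImplicit false
set_option linter.unusedVariables false

namespace Pool.Agent.SYR

open Set

theorem gam_big {q q' : ℕ} {K' : Type} (h : Big q K') (hq : q' ≤ q) : Big q' K' := by
  obtain ⟨j, hj⟩ := h
  exact ⟨fun x => j (Fin.castLE hq x), fun x y hxy => Fin.castLE_injective hq (hj hxy)⟩

section

variable {I J K N K' : Type} [DecidableEq K] {a : I → ℕ} {b : J → ℕ}

/-- the invariant -/
def gam_ok (S : N → Finset K) (v : N → (K → K') → Bool) (Γ : Set (N × Bool)) (D : Finset K) (e : K → K') : Prop :=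
  ∀ g c, (g, c) ∈ Γ → (c = true ∧ ∀ e' : K → K', InjOn e' (S g) → v g e' = true) ∨ (S g ⊆ D ∧ v g e = c)

theorem gam_mono {C : Circ (Tup a K × Tup b K) N} {S : N → Finset K} {v : N → (K → K') → Bool} (hI : Inv C S v)
    {Γ : Set (N × Bool)} {D D₁ : Finset K} {e e₁ : K → K'} (hD : D ⊆ D₁) (he : ∀ x ∈ D, e₁ x = e x)
    (h : gam_ok S v Γ D e) : gam_ok S v Γ D₁ e₁ := by
  intro g c hg
  rcases h g c hg with h1 | ⟨h1, h2⟩
  · exact Or.inl h1
  · exact Or.inr ⟨h1.trans hD, by rw [hI.1 g e₁ e (fun x hx => he x (h1 hx)), h2]⟩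

theorem gam_ins {S : N → Finset K} {v : N → (K → K') → Bool} {Γ : Set (N × Bool)} {D : Finset K} {e : K → K'} {h : N} {c : Bool}
    (h1 : gam_ok S v Γ D e) (h2 : S h ⊆ D) (h3 : v h e = c) : gam_ok S v (insert (h, c) Γ) D e := by
  intro g c' hg
  rcases hg with hg | hg
  · rw [Prod.mk.injEq] at hg
    obtain ⟨rfl, rfl⟩ := hg
    exact Or.inr ⟨h2, h3⟩
  · exact h1 g c' hg

theorem gam_pass (hEXD : St_EXD) {C : Circ (Tup a K × Tup b K) N} {S : N → Finset K} {v : N → (K → K') → Bool} (hI : Inv C S v)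
    {Γ : Set (N × Bool)} {D : Finset K} {e : K → K'} (g : N) (he : InjOn e D) (h : gam_ok S v Γ D e)
    (hB : Big (D ∪ S g).card K') :
    ∃ e₁ : K → K', (∀ x ∈ D, e₁ x = e x) ∧ InjOn e₁ (D ∪ S g : Finset K) ∧ gam_ok S v Γ (D ∪ S g) e₁ ∧
      ∀ c, (g, c) ∈ Γ → v g e₁ = c := by
  obtain ⟨e₁, h1, h2⟩ := hEXD K K' D (D ∪ S g) e Finset.subset_union_left he hB
  have h3 := gam_mono hI (Finset.subset_union_left (s₂ := S g)) h1 h
  refine ⟨e₁, h1, h2, h3, ?_⟩
  intro c hc
  rcases h3 g c hc with ⟨h4, h5⟩ | ⟨h4, h5⟩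
  · rw [h4]
    exact h5 e₁ (h2.mono (by
      intro x hx
      simp only [Finset.coe_union, mem_union]
      exact Or.inr hx))
  · exact h5

end

theorem thm_GAM (hEXD : St_EXD) (hEXT : St_EXT) : St_GAM := by
  intro I J K N K' _ _ a b C r S f v hS hv hI t Γ hL
  induction hL with
  | close t Γ g h₁ h₀ =>
    intro D e he hΓ hD hB
    have h0 : S g ⊆ D ∧ v g e = false := by
      rcases hΓ g false h₀ with ⟨h, -⟩ | h
      · exact absurd h (by simp)
      · exact h
    have h1 : v g e = true := by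
      rcases hΓ g true h₁ with ⟨-, h⟩ | h
      · exact h e (he.mono (by exact_mod_cast h0.1))
      · exact h.2
    rw [h0.2] at h1
    exact absurd h1 (by simp)
  | neg t Γ g h c hg hl H ih =>
    intro D e he hΓ hD hB
    have hc := hS.card g
    have hcu := Finset.card_union_le D (S g)
    have harith : (2 * (t + 1) + 1) * r = (2 * t + 1) * r + 2 * r := by ring
    obtain ⟨e₁, h1, h2, h3, h4⟩ := gam_pass hEXD hI g he hΓ (gam_big hB (by omega))
    have h5 := h4 c hg
    have h6 : v h e₁ = !c := by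
      rw [hv.neg g e₁ h hl] at h5
      rw [← h5]; simp
    exact ih (D ∪ S g) e₁ h2 (gam_ins h3 ((hS.neg g h hl).trans Finset.subset_union_right) h6) (by omega)
      (gam_big hB (by omega))
  | any t Γ g h c T hg hl hh H ih =>
    intro D e he hΓ hD hB
    have hc := hS.card g
    have hch := hS.card h
    have hcu := Finset.card_union_le D (S g)
    have hcu2 := Finset.card_union_le (D ∪ S g) (S h)
    have harith : (2 * (t + 1) + 1) * r = (2 * t + 1) * r + 2 * r := by ring
    obtain ⟨e₁, h1, h2, h3, h4⟩ := gam_pass hEXD hI g he hΓ (gam_big hB (by omega))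
    have h5 := h4 (!c) hg
    obtain ⟨e₂, k1, k2, k3, -⟩ := gam_pass hEXD hI h h2 h3 (gam_big hB (by omega))
    have h6 : v h e₂ = !c := by
      by_contra hne
      have hne' : v h e₂ = c := by
        cases hx : v h e₂ <;> cases c <;> simp_all
      have h7 : v g e₁ = c := by
        rw [hv.big g e₁ c T hl]
        refine ⟨h, hh, e₂, fun x hx => k1 x (Finset.mem_union_right _ hx), k2.mono ?_, hne'⟩
        intro x hx
        simp only [Finset.coe_union, mem_union] at hx ⊢
        tauto
      rw [h7] at h5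
      cases c <;> simp at h5
    exact ih (D ∪ S g ∪ S h) e₂ k2 (gam_ins k3 Finset.subset_union_right h6) (by omega) (gam_big hB (by omega))
  | each t Γ g c T hg hl H ih =>
    intro D e he hΓ hD hB
    have hc := hS.card g
    have hcu := Finset.card_union_le D (S g)
    have harith : (2 * (t + 1) + 1) * r = (2 * t + 1) * r + 2 * r := by ring
    obtain ⟨e₁, h1, h2, h3, h4⟩ := gam_pass hEXD hI g he hΓ (gam_big hB (by omega))
    have hr3 : (2 * t + 1) * r = 2 * (t * r) + r := by ring
    obtain ⟨h, hh, e₂, k1, k2, k3⟩ := hEXT I J K N K' a b C r S f v hS hv hI g c T (D ∪ S g) e₁ hl Finset.subset_union_right h2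
      (by omega) (h4 c hg)
    have hch := hS.card h
    have hcu2 := Finset.card_union_le (D ∪ S g) (S h)
    exact ih h hh (D ∪ S g ∪ S h) e₂ k2
      (gam_ins (gam_mono hI Finset.subset_union_left k1 h3) Finset.subset_union_right k3) (by omega) (gam_big hB (by omega))
  | ask t Γ g H₁ H₀ ih₁ ih₀ =>
    intro D e he hΓ hD hB
    have hc := hS.card g
    have hcu := Finset.card_union_le D (S g)
    have harith : (2 * (t + 1) + 1) * r = (2 * t + 1) * r + 2 * r := by ring
    obtain ⟨e₁, h1, h2, h3, h4⟩ := gam_pass hEXD hI g he hΓ (gam_big hB (by omega))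
    cases hx : v g e₁
    · exact ih₀ (D ∪ S g) e₁ h2 (gam_ins h3 Finset.subset_union_right hx) (by omega) (gam_big hB (by omega))
    · exact ih₁ (D ∪ S g) e₁ h2 (gam_ins h3 Finset.subset_union_right hx) (by omega) (gam_big hB (by omega))

end Pool.Agent.SYR

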