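import Pool.Agent.SYR.St

/-!
# SYR/IND (helper79): invariance of the values
-/

set_option autoImplicit false
set_option linter.unusedVariables false

namespace Pool.Agent.SYR

open Set

theorem ind_bool {x y c : Bool} (h : x = c ↔ y = c) : x = y := by
  cases x <;> cases y <;> cases c <;> simp at h ⊢

theorem thm_IND (hVAR : St_VAR) : St_IND := by
  intro I J K N K' _ _ a b C r S f v hS hr hv
  have key1 : ∀ (n : ℕ) (g : N), C.rk g < n → ∀ e e' : K → K', (∀ x ∈ S g, e x = e' x) → v g e = v g e' := by
    intro n
    induction n with
    | zero => intro g h; exact absurd h (Nat.not_lt_zero _)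
    | succ n ih =>
      intro g hg e e' he
      rcases hl : C.lab g with ⟨p, h⟩ | h | ⟨c, T⟩
      · obtain ⟨h1, h2⟩ := hVAR I J K N a b C r S hS hr g p h hl
        apply ind_bool (c := true)
        rw [hv.var g e p h hl, hv.var g e' p h hl]
        have h3 : p.map a e = p.map a e' := by
          unfold Tup.map
          congr 1
          funext u
          exact he _ (h1 u)
        have h4 : h.map b e = h.map b e' := by
          unfold Tup.map
          congr 1
          funext u
          exact he _ (h2 u)
        rw [h3, h4]
      · rw [hv.neg g e h hl, hv.neg g e' h hl,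
          ih h (by have := C.neg g h hl; omega) e e' (fun x hx => he x (hS.neg g h hl hx))]
      · apply ind_bool (c := c)
        rw [hv.big g e c T hl, hv.big g e' c T hl]
        constructor
        · rintro ⟨h, hh, e₁, h1, h2, h3⟩
          exact ⟨h, hh, e₁, fun x hx => (h1 x hx).trans (he x hx), h2, h3⟩
        · rintro ⟨h, hh, e₁, h1, h2, h3⟩
          exact ⟨h, hh, e₁, fun x hx => (h1 x hx).trans (he x hx).symm, h2, h3⟩
  have key2 : ∀ (n : ℕ) (g : N), C.rk g < n → ∀ (σ : Equiv.Perm K) (τ : Equiv.Perm N) (e : K → K'), IsAut C σ τ →
      v (τ g) (e ∘ σ.symm) = v g e := by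
    intro n
    induction n with
    | zero => intro g h; exact absurd h (Nat.not_lt_zero _)
    | succ n ih =>
      intro g hg σ τ e hA
      have hlt := hA g
      rcases hl : C.lab g with ⟨p, h⟩ | h | ⟨c, T⟩
      · rw [hl] at hlt
        apply ind_bool (c := true)
        rw [hv.var g e p h hl, hv.var (τ g) (e ∘ σ.symm) (p.map a σ) (h.map b σ) hlt]
        have h3 : (p.map a σ).map a (e ∘ σ.symm) = p.map a e := by
          unfold Tup.map
          congr 1
          funext u
          simp
        have h4 : (h.map b σ).map b (e ∘ σ.symm) = h.map b e := by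
          unfold Tup.map
          congr 1
          funext u
          simp
        rw [h3, h4]
      · rw [hl] at hlt
        rw [hv.neg g e h hl, hv.neg (τ g) _ (τ h) hlt, ih h (by have := C.neg g h hl; omega) σ τ e hA]
      · rw [hl] at hlt
        have hlt' : C.lab (τ g) = .big c (τ '' T) := hlt
        apply ind_bool (c := c)
        rw [hv.big g e c T hl, hv.big (τ g) _ c (τ '' T) hlt']
        constructor
        · rintro ⟨h', ⟨h, hh, rfl⟩, e₁, h1, h2, h3⟩
          have hee : e₁ = (e₁ ∘ σ) ∘ σ.symm := by
            funext x; simp
          refine ⟨h, hh, e₁ ∘ σ, ?_, ?_, ?_⟩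
          · intro x hx
            have h5 : σ x ∈ S (τ g) := by
              rw [hS.eqv σ τ g hA]
              exact Finset.mem_map_of_mem _ hx
            have h6 := h1 _ h5
            simpa using h6
          · intro x hx y hy hxy
            apply σ.injective
            apply h2 _ _ hxy
            · rw [hS.eqv σ τ g hA, hS.eqv σ τ h hA]
              simp only [Finset.coe_union, Finset.coe_map, mem_union] at hx ⊢
              exact hx.imp (fun h => ⟨x, h, rfl⟩) (fun h => ⟨x, h, rfl⟩)
            · rw [hS.eqv σ τ g hA, hS.eqv σ τ h hA]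
              simp only [Finset.coe_union, Finset.coe_map, mem_union] at hy ⊢
              exact hy.imp (fun h => ⟨y, h, rfl⟩) (fun h => ⟨y, h, rfl⟩)
          · rw [hee, ih h (by have := C.big g c T hl h hh; omega) σ τ (e₁ ∘ σ) hA] at h3
            exact h3
        · rintro ⟨h, hh, e₁, h1, h2, h3⟩
          refine ⟨τ h, ⟨h, hh, rfl⟩, e₁ ∘ σ.symm, ?_, ?_, ?_⟩
          · intro x hx
            rw [hS.eqv σ τ g hA, Finset.mem_map] at hx
            obtain ⟨y, hy, rfl⟩ := hx
            simpa using h1 y hy
          · intro x hx y hy hxy
            apply σ.symm.injective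
            apply h2 _ _ hxy
            · rw [hS.eqv σ τ g hA, hS.eqv σ τ h hA] at hx
              simp only [Finset.coe_union, Finset.coe_map, mem_union] at hx ⊢
              rcases hx with ⟨z, hz, rfl⟩ | ⟨z, hz, rfl⟩
              · left; simpa using hz
              · right; simpa using hz
            · rw [hS.eqv σ τ g hA, hS.eqv σ τ h hA] at hy
              simp only [Finset.coe_union, Finset.coe_map, mem_union] at hy ⊢
              rcases hy with ⟨z, hz, rfl⟩ | ⟨z, hz, rfl⟩
              · left; simpa using hz
              · right; simpa using hz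
          · rw [ih h (by have := C.big g c T hl h hh; omega) σ τ e₁ hA]
            exact h3
  exact ⟨fun g e e' he => key1 (C.rk g + 1) g (Nat.lt_succ_self _) e e' he,
    fun σ τ g e hA => key2 (C.rk g + 1) g (Nat.lt_succ_self _) σ τ e hA⟩

end Pool.Agent.SYR

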