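import Pool.Agent.SYR.St

/-!
# SYR/SND: all lines are valid (helper42, after the plan of helper79)
-/

set_option autoImplicit false
set_option linter.unusedVariables false

namespace Pool.Agent.SYR

open Set

theorem snd_big {q q' : ℕ} {K' : Type} (h : q ≤ q') (hB : Big q' K') : Big q K' := by
  obtain ⟨j, hj⟩ := hB
  exact ⟨fun i => j (Fin.castLE h i), fun a b hab => Fin.castLE_injective h (hj hab)⟩

theorem thm_SND (hGAM : St_GAM) : St_SND := by
  intro I J K N K' _ _ a b C r S f v hS hV hI t A hcard hB hax g hl
  induction hl with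
  | ax g c hc hg => exact fun e he => hax g c hc hg e he
  | inf T g hT hl ih =>
    intro e he
    by_contra hne
    have hfalse : v g e = false := by
      cases h : v g e
      · rfl
      · exact absurd h hne
    have h1 : (S g).card < r := hS.card g
    have h2 : (S g).card + (2 * t + 1) * r ≤ (2 * t + 3) * r := by nlinarith
    refine hGAM I J K N K' a b C r S f v hS hV hI t _ hl (S g) e he ?_ (h2.trans hcard) (snd_big h2 hB)
    intro g' c hgc
    rcases hgc with ⟨h3, h4⟩ | h3
    · exact Or.inl ⟨h4, fun e' he' => ih g' h3 e' he'⟩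
    · have h4 : (g', c) = (g, false) := h3
      rw [Prod.mk.injEq] at h4
      obtain ⟨rfl, rfl⟩ := h4
      exact Or.inr ⟨subset_rfl, hfalse⟩

end Pool.Agent.SYR
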