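import Pool.Agent.SYR.St
import Pool.Agent.Helper18.Support2

/-!
# SYR/SUP (helper79): supports
-/

set_option autoImplicit false
set_option linter.unusedVariables false
set_option linter.unusedSectionVars false

namespace Pool.Agent.SYR

open Set Pool.Agent.Helper18

section

variable {V N : Type}

theorem sup_map_map (f f' : V → V) (τ τ' : N → N) (l : Lab V N) : (l.map f τ).map f' τ' = l.map (f' ∘ f) (τ' ∘ τ) := by
  cases l with
  | var x => rfl
  | neg g => rfl
  | big b S => simp only [Lab.map, Set.image_comp]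

theorem sup_map_id (l : Lab V N) : l.map id id = l := by
  cases l with
  | var x => rfl
  | neg g => rfl
  | big b S => simp only [Lab.map, Set.image_id]

end

section

variable {I J K N : Type} {a : I → ℕ} {b : J → ℕ}

theorem sup_act_mul (σ σ' : Equiv.Perm K) :
    (fun x : Tup a K × Tup b K => (x.1.map a (σ * σ' : Equiv.Perm K), x.2.map b (σ * σ' : Equiv.Perm K))) =
      (fun x : Tup a K × Tup b K => (x.1.map a σ, x.2.map b σ)) ∘ fun x => (x.1.map a σ', x.2.map b σ') := rfl

theorem sup_act_one :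
    (fun x : Tup a K × Tup b K => (x.1.map a (1 : Equiv.Perm K), x.2.map b (1 : Equiv.Perm K))) = id := rfl

theorem sup_aut_one (C : Circ (Tup a K × Tup b K) N) : IsAut C 1 1 := by
  intro g
  rw [sup_act_one]
  exact (sup_map_id _).symm

theorem sup_aut_mul {C : Circ (Tup a K × Tup b K) N} {σ σ' : Equiv.Perm K} {τ τ' : Equiv.Perm N} (h : IsAut C σ τ)
    (h' : IsAut C σ' τ') : IsAut C (σ * σ') (τ * τ') := by
  intro g
  have h1 : C.lab ((τ * τ') g) = C.lab (τ (τ' g)) := rfl
  rw [h1, h (τ' g), h' g, sup_map_map, sup_act_mul]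
  rfl

theorem sup_aut_inv {C : Circ (Tup a K × Tup b K) N} {σ : Equiv.Perm K} {τ : Equiv.Perm N} (h : IsAut C σ τ) :
    IsAut C σ⁻¹ τ⁻¹ := by
  intro g
  have h1 := h (τ⁻¹ g)
  have h2 : τ (τ⁻¹ g) = g := τ.apply_symm_apply g
  rw [h2] at h1
  rw [h1, sup_map_map, ← sup_act_mul]
  have h3 : ((⇑(τ⁻¹ : Equiv.Perm N)) ∘ (⇑τ)) = id := by
    funext x
    exact τ.symm_apply_apply x
  rw [h3, inv_mul_cancel, sup_act_one, sup_map_id]

/-- the stabilizer of a gate -/
def supH (C : Circ (Tup a K × Tup b K) N) (g : N) : Subgroup (Equiv.Perm K) where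
  carrier := {σ | ∃ τ, IsAut C σ τ ∧ τ g = g}
  one_mem' := ⟨1, sup_aut_one C, rfl⟩
  mul_mem' := by
    rintro σ σ' ⟨τ, h1, h2⟩ ⟨τ', h1', h2'⟩
    exact ⟨τ * τ', sup_aut_mul h1 h1', by rw [Equiv.Perm.mul_apply, h2', h2]⟩
  inv_mem' := by
    rintro σ ⟨τ, h1, h2⟩
    refine ⟨τ⁻¹, sup_aut_inv h1, ?_⟩
    conv_lhs => rw [← h2]
    exact τ.symm_apply_apply g

theorem sup_mem {C : Circ (Tup a K × Tup b K) N} {g : N} {σ : Equiv.Perm K} : σ ∈ supH C g ↔ ∃ τ, IsAut C σ τ ∧ τ g = g :=
  Iff.rfl

theorem sup_count [Fintype K] [DecidableEq K] [Fintype N] (C : Circ (Tup a K × Tup b K) N) (g : N) :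
    Nat.card (Syms C) ≤ Fintype.card N * Nat.card (supH C g) := by
  classical
  have hch : ∀ σ : Syms C, ∃ τ, IsAut C σ.1 τ := fun σ => σ.2
  choose t ht using hch
  let ρ : N → Equiv.Perm K := fun n => if h : ∃ σ : Syms C, t σ g = n then (Classical.choose h).1 else 1
  have hρ : ∀ σ : Syms C, (ρ (t σ g))⁻¹ * σ.1 ∈ supH C g := by
    intro σ
    have h : ∃ σ' : Syms C, t σ' g = t σ g := ⟨σ, rfl⟩
    have h1 : ρ (t σ g) = (Classical.choose h).1 := dif_pos h
    have h2 := Classical.choose_spec h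
    rw [h1]
    refine ⟨(t (Classical.choose h))⁻¹ * t σ, sup_aut_mul (sup_aut_inv (ht _)) (ht _), ?_⟩
    rw [Equiv.Perm.mul_apply]
    have h4 := congrArg (⇑(t (Classical.choose h))⁻¹) h2
    exact h4.symm.trans ((t (Classical.choose h)).symm_apply_apply g)
  have hfin : Finite (N × supH C g) := inferInstance
  have hle := Nat.card_le_card_of_injective (α := Syms C) (β := N × supH C g)
    (fun σ => (t σ g, ⟨(ρ (t σ g))⁻¹ * σ.1, hρ σ⟩)) (by
      intro σ σ' hh
      simp only [Prod.mk.injEq, Subtype.mk.injEq] at hh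
      obtain ⟨h1, h2⟩ := hh
      rw [h1] at h2
      exact Subtype.ext (mul_left_cancel h2))
  rw [Nat.card_prod, Nat.card_eq_fintype_card (α := N)] at hle
  exact hle

theorem sup_unique [Fintype K] [DecidableEq K] {H : Subgroup (Equiv.Perm K)} {r : ℕ} {i j : K} (hr : 2 * r ≤ Fintype.card K)
    (hi : Fintype.card K < (cls H i).card + r) (hj : Fintype.card K < (cls H j).card + r) : cls H i = cls H j := by
  by_contra hne
  have hd : Disjoint (cls H i) (cls H j) := by
    rw [Finset.disjoint_left]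
    intro x h1 h2
    rw [mem_cls] at h1 h2
    exact hne (cls_eq_of_linked (h1.trans h2.symm))
  have h1 := Finset.card_union_of_disjoint hd
  have h2 := Finset.card_le_univ (cls H i ∪ cls H j)
  omega

end

theorem thm_SUP : St_SUP := by
  intro I J K N _ _ _ a b C r hr h8 hcount
  have hidx : ∀ g, (supH C g).index < (Fintype.card K).choose r := by
    intro g
    by_contra hge
    push Not at hge
    have h1 := sup_count C g
    have h2 : Nat.card (supH C g) * (supH C g).index = (Fintype.card K).factorial := by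
      rw [Subgroup.card_mul_index, Nat.card_eq_fintype_card, Fintype.card_perm]
    have h3 : (Fintype.card K).choose r * Nat.card (Syms C) ≤
        (supH C g).index * (Fintype.card N * Nat.card (supH C g)) := Nat.mul_le_mul hge h1
    have h4 : (supH C g).index * (Fintype.card N * Nat.card (supH C g)) = Fintype.card N * (Fintype.card K).factorial := by
      rw [← h2]; ring
    omega
  have hex : ∀ g, ∃ i, Fintype.card K < (cls (supH C g) i).card + r := fun g => exists_large_cls (supH C g) hr h8 (hidx g)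
  choose ι hι using hex
  have h2r : 2 * r ≤ Fintype.card K := by nlinarith
  refine ⟨fun g => (cls (supH C g) (ι g))ᶜ, ⟨?_, ?_, ?_, ?_⟩⟩
  · intro g
    have h1 := hι g
    have h2 := Finset.card_le_univ (cls (supH C g) (ι g))
    show ((cls (supH C g) (ι g))ᶜ).card < r
    rw [Finset.card_compl]
    omega
  · intro g σ hs hfix
    have h1 : σ ∈ supH C g := mem_of_support_cls (i := ι g) hs (fun x hx => hfix x (Finset.mem_compl.2 hx))
    exact h1
  · intro σ τ g hA
    have hH : ∀ ρ : Equiv.Perm K, σ * ρ * σ⁻¹ ∈ supH C (τ g) ↔ ρ ∈ supH C g := by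
      intro ρ
      constructor
      · rintro ⟨τ', h1, h2⟩
        refine ⟨τ⁻¹ * τ' * τ, ?_, ?_⟩
        · have h3 := sup_aut_mul (sup_aut_mul (sup_aut_inv hA) h1) hA
          have h4 : σ⁻¹ * (σ * ρ * σ⁻¹) * σ = ρ := by group
          rwa [h4] at h3
        · rw [Equiv.Perm.mul_apply, Equiv.Perm.mul_apply, h2]
          exact τ.symm_apply_apply g
      · rintro ⟨τ', h1, h2⟩
        refine ⟨τ * τ' * τ⁻¹, sup_aut_mul (sup_aut_mul hA h1) (sup_aut_inv hA), ?_⟩
        rw [Equiv.Perm.mul_apply, Equiv.Perm.mul_apply]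
        have h3 : τ⁻¹ (τ g) = g := τ.symm_apply_apply g
        rw [h3, h2]
    have h1 : cls (supH C (τ g)) (σ (ι g)) = (cls (supH C g) (ι g)).map σ.toEmbedding := by
      ext y
      rw [mem_cls, Finset.mem_map]
      constructor
      · intro hy
        refine ⟨σ.symm y, ?_, σ.apply_symm_apply y⟩
        rw [mem_cls, ← linked_conj hH, σ.apply_symm_apply]
        exact hy
      · rintro ⟨x, hx, rfl⟩
        rw [mem_cls, ← linked_conj hH] at hx
        exact hx
    have h2 : cls (supH C (τ g)) (ι (τ g)) = cls (supH C (τ g)) (σ (ι g)) := by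
      apply sup_unique h2r (hι _)
      rw [h1, Finset.card_map]
      exact hι g
    show (cls (supH C (τ g)) (ι (τ g)))ᶜ = ((cls (supH C g) (ι g))ᶜ).map σ.toEmbedding
    rw [h2, h1]
    ext y
    simp only [Finset.mem_compl, Finset.mem_map, Equiv.coe_toEmbedding, not_exists, not_and]
    constructor
    · intro h
      refine ⟨σ.symm y, fun h' => h _ h' (σ.apply_symm_apply y), σ.apply_symm_apply y⟩
    · rintro ⟨x, hx, rfl⟩ x' hx' he
      exact hx (σ.injective he ▸ hx')
  · intro g h hl
    have hle : ∀ σ, σ ∈ supH C g → σ ∈ supH C h := by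
      rintro σ ⟨τ, h1, h2⟩
      refine ⟨τ, h1, ?_⟩
      have h3 := h1 g
      rw [h2, hl] at h3
      have h4 : (Lab.neg h : Lab (Tup a K × Tup b K) N) = .neg (τ h) := h3
      injection h4 with h5
      exact h5.symm
    have hlink : ∀ i j, Linked (supH C g) i j → Linked (supH C h) i j := by
      rintro i j (h1 | ⟨l, h1, h2, h3, h4⟩)
      · exact Or.inl h1
      · exact Or.inr ⟨l, h1, h2, h3, hle _ h4⟩
    have hsub : cls (supH C g) (ι g) ⊆ cls (supH C h) (ι g) := by
      intro x hx
      rw [mem_cls] at hx ⊢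
      exact hlink _ _ hx
    have h1 : cls (supH C h) (ι h) = cls (supH C h) (ι g) := by
      apply sup_unique h2r (hι _)
      have := Finset.card_le_card hsub
      have := hι g
      omega
    show (cls (supH C h) (ι h))ᶜ ⊆ (cls (supH C g) (ι g))ᶜ
    rw [h1]
    exact Finset.compl_subset_compl.2 hsub

end Pool.Agent.SYR

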