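import Pool.Agent.SYR.St

/-!
# SYR/VAL (helper79): values exist
-/

set_option autoImplicit false
set_option linter.unusedVariables false

namespace Pool.Agent.SYR

open Set

section

variable {I J K N K' : Type} [DecidableEq K] {a : I → ℕ} {b : J → ℕ}

/-- one step of the evaluation -/
def val_step (S : N → Finset K) (f : Tup a K' → Tup b K') (prev : N → (K → K') → Prop) (g : N) (e : K → K') :
    Lab (Tup a K × Tup b K) N → Prop
  | .var x => f (x.1.map a e) = x.2.map b e
  | .neg h => ¬ prev h e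
  | .big true T => ∃ h ∈ T, ∃ e' : K → K', (∀ x ∈ S g, e' x = e x) ∧ InjOn e' (S g ∪ S h : Finset K) ∧ prev h e'
  | .big false T => ¬ ∃ h ∈ T, ∃ e' : K → K', (∀ x ∈ S g, e' x = e x) ∧ InjOn e' (S g ∪ S h : Finset K) ∧ ¬ prev h e'

/-- evaluation up to the rank -/
def val_ev (C : Circ (Tup a K × Tup b K) N) (S : N → Finset K) (f : Tup a K' → Tup b K') : ℕ → N → (K → K') → Prop
  | 0 => fun _ _ => False
  | n + 1 => fun g e => val_step S f (val_ev C S f n) g e (C.lab g)

theorem val_stable (C : Circ (Tup a K × Tup b K) N) (S : N → Finset K) (f : Tup a K' → Tup b K') :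
    ∀ (n m : ℕ) (g : N) (e : K → K'), C.rk g < n → C.rk g < m → (val_ev C S f n g e ↔ val_ev C S f m g e) := by
  intro n
  induction n with
  | zero => intro m g e h; exact absurd h (Nat.not_lt_zero _)
  | succ n ih =>
    intro m g e hn hm
    obtain ⟨m, rfl⟩ : ∃ m', m = m' + 1 := ⟨m - 1, by omega⟩
    show val_step S f (val_ev C S f n) g e (C.lab g) ↔ val_step S f (val_ev C S f m) g e (C.lab g)
    rcases hl : C.lab g with x | h | ⟨c, T⟩
    · exact Iff.rfl
    · have hr := C.neg g h hl
      exact not_congr (ih m h e (by omega) (by omega))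
    · have key : ∀ h ∈ T, ∀ e' : K → K', (val_ev C S f n h e' ↔ val_ev C S f m h e') := fun h hh e' => by
        have hr := C.big g c T hl h hh
        exact ih m h e' (by omega) (by omega)
      cases c
      · refine not_congr ⟨?_, ?_⟩
        · rintro ⟨h, hh, e', h1, h2, h3⟩
          exact ⟨h, hh, e', h1, h2, fun h4 => h3 ((key h hh e').2 h4)⟩
        · rintro ⟨h, hh, e', h1, h2, h3⟩
          exact ⟨h, hh, e', h1, h2, fun h4 => h3 ((key h hh e').1 h4)⟩
      · constructor
        · rintro ⟨h, hh, e', h1, h2, h3⟩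
          exact ⟨h, hh, e', h1, h2, (key h hh e').1 h3⟩
        · rintro ⟨h, hh, e', h1, h2, h3⟩
          exact ⟨h, hh, e', h1, h2, (key h hh e').2 h3⟩

end

theorem thm_VAL : St_VAL := by
  classical
  intro I J K N K' _ a b C S f
  let v : N → (K → K') → Bool := fun g e => decide (val_ev C S f (C.rk g + 1) g e)
  have hv : ∀ g e, v g e = true ↔ val_step S f (fun h e' => v h e' = true) g e (C.lab g) := by
    intro g e
    have h1 : v g e = true ↔ val_step S f (val_ev C S f (C.rk g)) g e (C.lab g) := by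
      simp only [v, decide_eq_true_eq]
      exact Iff.rfl
    rw [h1]
    have hvv : ∀ h e', C.rk h < C.rk g → (val_ev C S f (C.rk g) h e' ↔ v h e' = true) := by
      intro h e' hr
      simp only [v, decide_eq_true_eq]
      exact val_stable C S f _ _ h e' hr (Nat.lt_succ_self _)
    rcases hl : C.lab g with x | h | ⟨c, T⟩
    · exact Iff.rfl
    · exact not_congr (hvv h e (C.neg g h hl))
    · cases c
      · refine not_congr ⟨?_, ?_⟩
        · rintro ⟨h, hh, e', h1, h2, h3⟩
          exact ⟨h, hh, e', h1, h2, fun h4 => h3 ((hvv h e' (C.big g _ T hl h hh)).2 h4)⟩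
        · rintro ⟨h, hh, e', h1, h2, h3⟩
          exact ⟨h, hh, e', h1, h2, fun h4 => h3 ((hvv h e' (C.big g _ T hl h hh)).1 h4)⟩
      · constructor
        · rintro ⟨h, hh, e', h1, h2, h3⟩
          exact ⟨h, hh, e', h1, h2, (hvv h e' (C.big g _ T hl h hh)).1 h3⟩
        · rintro ⟨h, hh, e', h1, h2, h3⟩
          exact ⟨h, hh, e', h1, h2, (hvv h e' (C.big g _ T hl h hh)).2 h3⟩
  refine ⟨v, ⟨?_, ?_, ?_⟩⟩
  · intro g e p h hl
    rw [hv, hl]
    exact Iff.rfl
  · intro g e h hl
    have h1 : v g e = true ↔ ¬ v h e = true := by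
      rw [hv, hl]
      exact Iff.rfl
    generalize v h e = y at h1 ⊢
    generalize v g e = z at h1 ⊢
    cases y <;> cases z <;> simp at h1 ⊢
  · intro g e c T hl
    have h1 := hv g e
    rw [hl] at h1
    cases c
    · have h2 : v g e = false ↔ ¬ v g e = true := by cases v g e <;> simp
      rw [h2, h1]
      show ¬ ¬ (∃ h ∈ T, ∃ e' : K → K', (∀ x ∈ S g, e' x = e x) ∧ InjOn e' (S g ∪ S h : Finset K) ∧ ¬ v h e' = true) ↔ _
      rw [not_not]
      constructor
      · rintro ⟨h, hh, e', h3, h4, h5⟩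
        exact ⟨h, hh, e', h3, h4, by simpa using h5⟩
      · rintro ⟨h, hh, e', h3, h4, h5⟩
        exact ⟨h, hh, e', h3, h4, by simp [h5]⟩
    · exact h1

end Pool.Agent.SYR

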