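import Pool.Agent.SYR.St

/-!
# SYR/VAR: the points of a variable are in the support (helper42, after the plan of helper79)
-/

set_option autoImplicit false
set_option linter.unusedVariables false

namespace Pool.Agent.SYR

open Set

/-- an even permutation which moves a given point outside of a small set and fixes the set pointwise -/
theorem var_perm {K : Type} [Fintype K] [DecidableEq K] (D : Finset K) (hD : D.card + 3 ≤ Fintype.card K) (c : K) (hc : c ∉ D) :
    ∃ σ : Equiv.Perm K, Equiv.Perm.sign σ = 1 ∧ (∀ x ∈ D, σ x = x) ∧ σ c ≠ c := by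
  have h1 : 2 ≤ (Dᶜ.erase c).card := by
    rw [Finset.card_erase_of_mem (Finset.mem_compl.2 hc), Finset.card_compl]
    omega
  obtain ⟨d, hd, l, hl, hdl⟩ := Finset.one_lt_card.1 h1
  rw [Finset.mem_erase, Finset.mem_compl] at hd hl
  refine ⟨Equiv.swap c d * Equiv.swap d l, ?_, ?_, ?_⟩
  · rw [Equiv.Perm.sign_mul, Equiv.Perm.sign_swap hd.1.symm, Equiv.Perm.sign_swap hdl]
    rfl
  · intro x hx
    have hxc : x ≠ c := fun h => hc (h ▸ hx)
    have hxd : x ≠ d := fun h => hd.2 (h ▸ hx)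
    have hxl : x ≠ l := fun h => hl.2 (h ▸ hx)
    rw [Equiv.Perm.mul_apply, Equiv.swap_apply_of_ne_of_ne hxd hxl, Equiv.swap_apply_of_ne_of_ne hxc hxd]
  · rw [Equiv.Perm.mul_apply, Equiv.swap_apply_of_ne_of_ne hd.1.symm hl.1.symm, Equiv.swap_apply_left]
    exact hd.1

theorem thm_VAR : St_VAR := by
  intro I J K N _ _ a b C r S hS hr g p h hg
  have hcard : (S g).card + 3 ≤ Fintype.card K := by
    have := hS.card g
    omega
  have key : ∀ σ : Equiv.Perm K, Equiv.Perm.sign σ = 1 → (∀ x ∈ S g, σ x = x) →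
      (∀ u, σ (p.2 u) = p.2 u) ∧ ∀ u, σ (h.2 u) = h.2 u := by
    intro σ hσ hfix
    obtain ⟨τ, hτ, hτg⟩ := hS.mem g σ hσ hfix
    have h1 := hτ g
    rw [hτg, hg] at h1
    have h2 : (p, h) = (p.map a σ, h.map b σ) := by
      have h3 : (Lab.var (p, h) : Lab (Tup a K × Tup b K) N) = Lab.var (p.map a σ, h.map b σ) := h1
      injection h3
    rw [Prod.mk.injEq] at h2
    obtain ⟨h4, h5⟩ := h2
    refine ⟨?_, ?_⟩
    · intro u
      obtain ⟨i, q⟩ := p
      have h6 : (⟨i, q⟩ : Tup a K) = ⟨i, σ ∘ q⟩ := h4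
      have h7 : q = σ ∘ q := eq_of_heq (Sigma.mk.inj h6).2
      exact (congrFun h7 u).symm
    · intro u
      obtain ⟨i, q⟩ := h
      have h6 : (⟨i, q⟩ : Tup b K) = ⟨i, σ ∘ q⟩ := h5
      have h7 : q = σ ∘ q := eq_of_heq (Sigma.mk.inj h6).2
      exact (congrFun h7 u).symm
  refine ⟨fun u => ?_, fun u => ?_⟩
  · by_contra hc
    obtain ⟨σ, h1, h2, h3⟩ := var_perm (S g) hcard (p.2 u) hc
    exact h3 ((key σ h1 h2).1 u)
  · by_contra hc
    obtain ⟨σ, h1, h2, h3⟩ := var_perm (S g) hcard (h.2 u) hc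
    exact h3 ((key σ h1 h2).2 u)

end Pool.Agent.SYR
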