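import Pool.Agent.SYR.St
import Pool.Agent.SYR.SUP
import Pool.Agent.SYR.VAL
import Pool.Agent.SYR.VAR
import Pool.Agent.SYR.IND
import Pool.Agent.SYR.EXD
import Pool.Agent.SYR.EXT
import Pool.Agent.SYR.GAM
import Pool.Agent.SYR.SND
import Pool.Agent.SYR.AXP
import Pool.Agent.SYR.AXN
import Pool.Agent.SYR.FIN

/-!
# SYR/ASM (helper79): assembly
-/

namespace Pool.Agent.SYR

theorem asm_fin : St_FIN :=
  thm_FIN thm_SUP thm_VAL (thm_IND thm_VAR) thm_EXD (thm_SND (thm_GAM thm_EXD thm_EXT)) (thm_AXP thm_EXD) (thm_AXN thm_EXD)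

end Pool.Agent.SYR
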