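import Mathlib

/-!
# SYR (helper79): symmetries of refutations of the onto functional pigeonhole principle (MP_045d6b_lc).  Definitions
-/

set_option autoImplicit false
set_option linter.unusedVariables false

namespace Pool.Agent.SYR

/-! ### Circuits of formulas -/

/-- the top of a formula: a variable, the negation of a formula, the disjunction (`b = true`) or conjunction (`b = false`) of any set of
formulas.  `V`: variables, `N`: formulas (gates) -/
inductive Lab (V N : Type)
  | var (x : V) : Lab V N
  | neg (g : N) : Lab V N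
  | big (b : Bool) (S : Set N) : Lab V N

/-- renaming of the variables by `f` and of the gates by `τ` -/
def Lab.map {V N : Type} (f : V → V) (τ : N → N) : Lab V N → Lab V N
  | .var x => .var (f x)
  | .neg g => .neg (τ g)
  | .big b S => .big b (τ '' S)

/-- a set `N` of gates (formulas, given by their tops): the subformulas of the formulas of a refutation.  A formula may be used several times
(circuits), the depth is arbitrary -/
structure Circ (V N : Type) where
  lab : N → Lab V N
  rk : N → ℕ
  neg : ∀ g h, lab g = .neg h → rk h < rk g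
  big : ∀ g b S, lab g = .big b S → ∀ h ∈ S, rk h < rk g

/-- `Loc C t Γ`: the statements `(g, b) ∈ Γ` (the gate `g` has the value `b`) lead to a contradiction in a decision tree of height `t` which looks at
the tops of gates: it asks for the value of a gate, for a gate below a true disjunction (false conjunction) which is true (false), or looks at any
gate below a false disjunction (true conjunction) or negation -/
inductive Loc {V N : Type} (C : Circ V N) : ℕ → Set (N × Bool) → Prop
  | close (t : ℕ) (Γ : Set (N × Bool)) (g : N) (h₁ : (g, true) ∈ Γ) (h₀ : (g, false) ∈ Γ) : Loc C t Γ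
  | neg (t : ℕ) (Γ : Set (N × Bool)) (g h : N) (b : Bool) (hg : (g, b) ∈ Γ) (hl : C.lab g = .neg h)
      (H : Loc C t (insert (h, !b) Γ)) : Loc C (t + 1) Γ
  | any (t : ℕ) (Γ : Set (N × Bool)) (g h : N) (b : Bool) (S : Set N) (hg : (g, !b) ∈ Γ) (hl : C.lab g = .big b S) (hh : h ∈ S)
      (H : Loc C t (insert (h, !b) Γ)) : Loc C (t + 1) Γ
  | each (t : ℕ) (Γ : Set (N × Bool)) (g : N) (b : Bool) (S : Set N) (hg : (g, b) ∈ Γ) (hl : C.lab g = .big b S)
      (H : ∀ h ∈ S, Loc C t (insert (h, b) Γ)) : Loc C (t + 1) Γ
  | ask (t : ℕ) (Γ : Set (N × Bool)) (g : N) (H₁ : Loc C t (insert (g, true) Γ)) (H₀ : Loc C t (insert (g, false) Γ)) :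
      Loc C (t + 1) Γ

/-- the gate `g` is the literal `l` -/
def IsLit {V N : Type} (C : Circ V N) (g : N) (l : V × Bool) : Prop :=
  (l.2 = true ∧ C.lab g = .var l.1) ∨ (l.2 = false ∧ ∃ h, C.lab g = .neg h ∧ C.lab h = .var l.1)

/-- the gate `g` is the clause `c` -/
def IsClause {V N : Type} (C : Circ V N) (g : N) (c : Set (V × Bool)) : Prop :=
  ∃ S, C.lab g = .big true S ∧ (∀ h ∈ S, ∃ l ∈ c, IsLit C h l) ∧ ∀ l ∈ c, ∃ h ∈ S, IsLit C h l

/-- the lines: the gates which are derived from the clauses in `A` by `t`-local inferences.  Every inference from any number of premises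
`T` to `g` is allowed if the premises together with the negation of `g` have a contradiction of height `t`.  Instances of a sound rule scheme
with connectives are `t`-local for a `t` which depends only on the scheme -/
inductive Line {V N : Type} (C : Circ V N) (t : ℕ) (A : Set (Set (V × Bool))) : N → Prop
  | ax (g : N) (c : Set (V × Bool)) (hc : c ∈ A) (hg : IsClause C g c) : Line C t A g
  | inf (T : Set N) (g : N) (hT : ∀ h ∈ T, Line C t A h) (hl : Loc C t ({p | p.1 ∈ T ∧ p.2 = true} ∪ {(g, false)})) : Line C t A g

/-- the gates of `C` carry a refutation of the clauses in `A` with `t`-local inferences -/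
def Refutes {V N : Type} (C : Circ V N) (t : ℕ) (A : Set (Set (V × Bool))) : Prop :=
  ∃ g, C.lab g = .big true ∅ ∧ Line C t A g

/-! ### The principle -/

/-- the clauses of the onto functional pigeonhole principle for pigeons `P` and holes `H` -/
def Php (P H : Type) : Set (Set ((P × H) × Bool)) :=
  {c | (∃ p, c = {l | ∃ h, l = ((p, h), true)}) ∨ (∃ h, c = {l | ∃ p, l = ((p, h), true)}) ∨
    (∃ p p' h, p ≠ p' ∧ c = {((p, h), false), ((p', h), false)}) ∨ ∃ p h h', h ≠ h' ∧ c = {((p, h), false), ((p, h'), false)}}

/-- the disjoint union of the powers `K ^ (a i)`.  The powers with `a i = 0` are single points -/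
abbrev Tup {I : Type} (a : I → ℕ) (K : Type) : Type := Σ i : I, (Fin (a i) → K)

/-- the map induced by a map `K → L` -/
def Tup.map {I : Type} (a : I → ℕ) {K L : Type} (e : K → L) (p : Tup a K) : Tup a L := ⟨p.1, e ∘ p.2⟩

/-- `τ` is an automorphism of the circuit which acts on the variables as the permutation `σ` of `K` -/
def IsAut {I J K N : Type} {a : I → ℕ} {b : J → ℕ} (C : Circ (Tup a K × Tup b K) N) (σ : Equiv.Perm K) (τ : Equiv.Perm N) : Prop :=
  ∀ g, C.lab (τ g) = (C.lab g).map (fun x => (x.1.map a σ, x.2.map b σ)) τ

/-- the symmetries of the circuit in `Sym K` -/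
def Syms {I J K N : Type} {a : I → ℕ} {b : J → ℕ} (C : Circ (Tup a K × Tup b K) N) : Set (Equiv.Perm K) :=
  {σ | ∃ τ, IsAut C σ τ}

end Pool.Agent.SYR
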