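import Pool.Agent.SYR.Defs

/-!
# SYR/St (helper79): statements with complete proofs

Module XXX is `Pool/Agent/SYR/XXX.lean` with `theorem thm_XXX (hAAA : St_AAA) .. : St_XXX`; the hypotheses are listed under HYPS.
Aux lemmas: names beginning with `xxx_` or private.  Every file: `import Pool.Agent.SYR.St`, namespace `Pool.Agent.SYR`.

PLAN.  If a refutation with few gates has many symmetries in `Sym K`, every gate `g` has a small support `S g ⊆ K`: all even permutations which fix
`S g` pointwise come from automorphisms which fix `g` (SUP, from the support theorem of `Pool/Agent/Helper18/Support2.lean`).  Then every gate gets a value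
`v g e` for every function `e : K → K'` which is injective on `S g` (VAL), as if the pigeons were `Tup a K'` and the holes `Tup b K'`: there a bijection `f`
exists.  A disjunction is true at `e` iff some gate below it is true at some `e'` which agrees with `e` on the support.  The values do not depend on the
values of `e` outside the support and are invariant under automorphisms (IND), so extensions can be chosen on top of any small set (EXT), and
`t`-local inferences are sound (GAM, SND).  The clauses are true (AXP, AXN), the empty disjunction is not.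
-/

set_option autoImplicit false
set_option linter.unusedVariables false

namespace Pool.Agent.SYR

open Set

/-- supports of the gates with fewer than `r` points -/
structure Supp {I J K N : Type} {a : I → ℕ} {b : J → ℕ} [Fintype K] [DecidableEq K] (C : Circ (Tup a K × Tup b K) N) (r : ℕ)
    (S : N → Finset K) : Prop where
  card : ∀ g, (S g).card < r
  mem : ∀ g (σ : Equiv.Perm K), Equiv.Perm.sign σ = 1 → (∀ x ∈ S g, σ x = x) → ∃ τ, IsAut C σ τ ∧ τ g = g
  eqv : ∀ σ τ g, IsAut C σ τ → S (τ g) = (S g).map σ.toEmbedding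
  neg : ∀ g h, C.lab g = .neg h → S h ⊆ S g

/-- values of the gates -/
structure Val {I J K N K' : Type} {a : I → ℕ} {b : J → ℕ} [DecidableEq K] (C : Circ (Tup a K × Tup b K) N) (S : N → Finset K)
    (f : Tup a K' → Tup b K') (v : N → (K → K') → Bool) : Prop where
  var : ∀ g e p h, C.lab g = .var (p, h) → (v g e = true ↔ f (p.map a e) = h.map b e)
  neg : ∀ g e h, C.lab g = .neg h → v g e = !(v h e)
  big : ∀ g e c T, C.lab g = .big c T →
    (v g e = c ↔ ∃ h ∈ T, ∃ e' : K → K', (∀ x ∈ S g, e' x = e x) ∧ InjOn e' (S g ∪ S h : Finset K) ∧ v h e' = c)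

/-- `K'` has at least `q` elements -/
def Big (q : ℕ) (K' : Type) : Prop := ∃ j : Fin q → K', Function.Injective j

/-- the values do not depend on the values outside the support, and are invariant -/
def Inv {I J K N K' : Type} {a : I → ℕ} {b : J → ℕ} (C : Circ (Tup a K × Tup b K) N) (S : N → Finset K)
    (v : N → (K → K') → Bool) : Prop :=
  (∀ g e e', (∀ x ∈ S g, e x = e' x) → v g e = v g e') ∧ ∀ σ τ g e, IsAut C σ τ → v (τ g) (e ∘ σ.symm) = v g e

/-- [SUP] supports.
HYPS: none (import `Pool.Agent.Helper18.Support2`).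
PROOF.  `k := Fintype.card K`.  For a gate `g` let `H g : Subgroup (Equiv.Perm K)` be the set of all `σ` with `∃ τ, IsAut C σ τ ∧ τ g = g` (automorphisms compose, `IsAut C 1 1`,
inverses: `Set.image_image`, apply the equation at `τ.symm g`).  `Nat.card (Syms C) ≤ Fintype.card N * Nat.card (H g)`: choose `τ σ` for `σ ∈ Syms C`; `σ ↦ τ σ g`; if
`τ σ g = τ σ' g` then `σ⁻¹ * σ' ∈ H g`; so every fibre has at most `Nat.card (H g)` elements.  `Nat.card (H g) * (H g).index = k!`.  So
`(H g).index < k.choose r`: otherwise `k.choose r * Nat.card (Syms C) ≤ (H g).index * card N * Nat.card (H g) = card N * k!`.  By `Helper18.exists_large_cls` there is `i g` with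
`k < (cls (H g) (i g)).card + r`; `S g := (cls (H g) (i g))ᶜ`.  card: clear.  mem: `mem_of_support_cls`.
UNIQUE: if `k < (cls (H g) j).card + r` then `cls (H g) j = cls (H g) (i g)`: two different classes are disjoint, and `2 * (k - r) ≥ k`.
eqv: `H (τ g) = σ (H g) σ⁻¹` (`τ' (τ g) = τ g` iff `τ⁻¹ τ' τ` fixes `g`); by `linked_conj` `cls (H (τ g)) (σ j)` is the image of `cls (H g) j`, so has the same size; by
UNIQUE it is the large class of `τ g`.  neg: `τ g = g` implies `C.lab g = (C.lab g).map ..`, `Lab.neg h = Lab.neg (τ h)`, so `τ h = h`: `H g ≤ H h`; `Linked (H g) i j →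
Linked (H h) i j`; `cls (H g) (i g) ⊆ cls (H h) (i g)`, which is large: UNIQUE. -/
def St_SUP : Prop :=
  ∀ (I J K N : Type) [Fintype K] [DecidableEq K] [Fintype N] (a : I → ℕ) (b : J → ℕ) (C : Circ (Tup a K × Tup b K) N) (r : ℕ),
    2 ≤ r → 8 * r * (r + 1) ≤ Fintype.card K →
    Fintype.card N * (Fintype.card K).factorial < (Fintype.card K).choose r * Nat.card (Syms C) → ∃ S, Supp C r S

/-- [VAL] values exist.
HYPS: none.
PROOF.  Recursion on the rank: `ev : ℕ → N → (K → K') → Prop`, `ev 0 g e := False`, `ev (n + 1) g e :=` by cases on `C.lab g`: `var (p, h)`: `f (p.map a e) = h.map b e`; `neg h`: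
`¬ ev n h e`; `big true T`: `∃ h ∈ T, ∃ e', .. ∧ ev n h e'`; `big false T`: `¬ ∃ h ∈ T, ∃ e', .. ∧ ¬ ev n h e'`.  For `n, m > C.rk g`: `ev n g e ↔ ev m g e` (induction).
`v g e := decide (ev (C.rk g + 1) g e)`. -/
def St_VAL : Prop :=
  ∀ (I J K N K' : Type) [DecidableEq K] (a : I → ℕ) (b : J → ℕ) (C : Circ (Tup a K × Tup b K) N) (S : N → Finset K)
    (f : Tup a K' → Tup b K'), ∃ v, Val C S f v

/-- [VAR] the points of a variable are in the support.
HYPS: none.
PROOF.  Let `c = p.2 u ∉ S g`.  There are `d`, `l` outside `S g`, different and different from `c` (`r + 2 ≤ card K`, `(S g).card < r`).  `σ := swap c d * swap d l` is even, fixes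
`S g` pointwise, `σ c = d`.  `mem`: `τ g = g`, `IsAut C σ τ`: `var (p, h) = var (p.map a σ, h.map b σ)`, so `σ ∘ p.2 = p.2` (`Sigma` with the same first component: `eq_of_heq`), `σ c = c`.
The same for `h`. -/
def St_VAR : Prop :=
  ∀ (I J K N : Type) [Fintype K] [DecidableEq K] (a : I → ℕ) (b : J → ℕ) (C : Circ (Tup a K × Tup b K) N) (r : ℕ) (S : N → Finset K),
    Supp C r S → r + 2 ≤ Fintype.card K → ∀ g p h, C.lab g = .var (p, h) → (∀ u, p.2 u ∈ S g) ∧ ∀ u, h.2 u ∈ S g

/-- [IND] invariance of the values.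
HYPS: VAR.
PROOF.  First part: induction on `C.rk g`.  `var`: VAR: `e` and `e'` agree on all points of `p` and `h`.  `neg h`: `S h ⊆ S g`.  `big`: the right side of `Val.big` depends only
on the values of `e` on `S g` (so `v g e = c ↔ v g e' = c`, and `Bool` has two elements).  Second part: induction on `C.rk g`; `IsAut C σ τ`: `var`: `(p.map a σ).map a (e ∘ σ.symm) =
p.map a e`.  `neg`: clear.  `big c T`: `C.lab (τ g) = .big c (τ '' T)`; `S (τ g) = σ '' S g`; if `h ∈ T`, `e'` are as in `Val.big` for `g`, `e`, then `τ h`, `e' ∘ σ.symm` are so for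
`τ g`, `e ∘ σ.symm` (induction hypothesis for `h`, `e'`); conversely for `τ h ∈ τ '' T` and `e''` take `h`, `e'' ∘ σ` (`e'' = (e'' ∘ σ) ∘ σ.symm`). -/
def St_IND : Prop :=
  ∀ (I J K N K' : Type) [Fintype K] [DecidableEq K] (a : I → ℕ) (b : J → ℕ) (C : Circ (Tup a K × Tup b K) N) (r : ℕ) (S : N → Finset K)
    (f : Tup a K' → Tup b K') (v : N → (K → K') → Bool),
    Supp C r S → r + 2 ≤ Fintype.card K → Val C S f v → Inv C S v

/-- [EXD] extension of injections.
HYPS: none.
PROOF.  Induction on `D' \ D`: `e` has fewer than `q` values on a set with fewer than `q` points, so there is a new value in `K'`. -/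
def St_EXD : Prop :=
  ∀ (K K' : Type) [DecidableEq K] (D D' : Finset K) (e : K → K'), D ⊆ D' → InjOn e D → Big D'.card K' →
    ∃ e' : K → K', (∀ x ∈ D, e' x = e x) ∧ InjOn e' D'

/-- [EXT] extensions on top of any small set.
HYPS: none.
PROOF.  `Val.big`: `h' ∈ T`, `e''` with `e'' = e` on `S g`, `e''` injective on `S g ∪ S h'`, `v h' e'' = c`.  `B := S h' \ S g`.  For `x ∈ B`: if `e'' x = e d` for some `d ∈ D`
then `d ∉ S g` (`e'' d = e d = e'' x` would give `d = x`, injectivity of `e''` on `S g ∪ S h'`), `d` is unique, `ι x := d`; otherwise `ι x` is a point outside `D`, different for different `x` (there are at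
least `r` points outside `D`).  `ι` on `B` and the identity on `S g` are together injective on `S g ∪ B` (values in `S g`, `D \ S g`, `Dᶜ`); extend to a permutation `σ` of `K`
(for instance `Equiv.extendSubtype`), even (otherwise compose first with the transposition of two points outside `S g ∪ S h'`; `D.card + r + 2 ≤ card K`).  `mem`: `τ g = g`,
`IsAut C σ τ`, so `τ '' T = T` (from `C.lab (τ g) = (C.lab g).map ..`), `h := τ h' ∈ T`, `S h = σ '' S h'`.  `e' y := e y` for `y ∈ D`, `e' y := e'' (σ.symm y)` otherwise.  On `S h` we have `e' = e'' ∘ σ.symm`: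
for `x ∈ S h'`, `σ x ∈ D`: `x ∈ S g` (then `σ x = x`) or `ι x = d`, `e d = e'' x`.  `InjOn e' (D ∪ S h)`: for `y ∈ D`, `σ x ∉ D`: `e'' x ≠ e y` (if `x ∈ S g` then `σ x = x ∈ D`; if `x ∈ B`
then `ι x ∉ D` says that `e'' x` is no value of `e` on `D`).  `v h e' = v h (e'' ∘ σ.symm) = v h' e'' = c` (`Inv`). -/
def St_EXT : Prop :=
  ∀ (I J K N K' : Type) [Fintype K] [DecidableEq K] (a : I → ℕ) (b : J → ℕ) (C : Circ (Tup a K × Tup b K) N) (r : ℕ) (S : N → Finset K)
    (f : Tup a K' → Tup b K') (v : N → (K → K') → Bool),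
    Supp C r S → Val C S f v → Inv C S v → ∀ (g : N) (c : Bool) (T : Set N) (D : Finset K) (e : K → K'), C.lab g = .big c T →
    S g ⊆ D → InjOn e D → D.card + r + 2 ≤ Fintype.card K → v g e = c →
    ∃ h ∈ T, ∃ e' : K → K', (∀ x ∈ D, e' x = e x) ∧ InjOn e' (D ∪ S h : Finset K) ∧ v h e' = c

/-- [GAM] local contradictions do not happen.
HYPS: EXD, EXT.
PROOF.  Induction on `Loc C t Γ`, for all `D`, `e`.  CALL `(g, c) ∈ Γ` fixed if `S g ⊆ D` and `v g e = c`, valid otherwise.  If `D ⊆ D₁`, `e₁ = e` on `D`, `e₁` injective on `D₁`, the hypothesis on `Γ` stays true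
(`Inv`).  So for one `(g, c) ∈ Γ` we may pass to `D₁ = D ∪ S g` (EXD), fewer than `r` new points, and then `v g e₁ = c`.  close: `(g, false)` is fixed (`c = true` fails), `v g e = false`; `(g, true)` valid or
fixed gives `v g e = true` (`S g ⊆ D`).  neg: pass to `D₁`; `v h e₁ = !b`, `S h ⊆ S g ⊆ D₁`.  any: pass to `D₁`, then to `D₂ = D₁ ∪ S h` with `e₂` (EXD); `v h e₂ = b` would give `v g e₁ = b` by `Val.big`
(`e₂ = e₁` on `S g`, injective on `S g ∪ S h`); so `v h e₂ = !b`.  each: pass to `D₁`; EXT for `D₁`, `e₁`: `h ∈ S`, `e₂ = e₁` on `D₁`, injective on `D₂ = D₁ ∪ S h`, `v h e₂ = b`.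
ask: pass to `D₁ = D ∪ S g`, use `H₁` or `H₀` according to `v g e₁`.  In all cases `D₂.card + (2 t + 1) r ≤ D.card + (2 (t + 1) + 1) r`; EXT needs
`D₁.card + r + 2 ≤ card K`: `D.card + 3 r ≤ card K`, `D₁.card + 1 ≤ D.card + r`, `1 ≤ r`. -/
def St_GAM : Prop :=
  ∀ (I J K N K' : Type) [Fintype K] [DecidableEq K] (a : I → ℕ) (b : J → ℕ) (C : Circ (Tup a K × Tup b K) N) (r : ℕ) (S : N → Finset K)
    (f : Tup a K' → Tup b K') (v : N → (K → K') → Bool),
    Supp C r S → Val C S f v → Inv C S v → ∀ (t : ℕ) (Γ : Set (N × Bool)), Loc C t Γ → ∀ (D : Finset K) (e : K → K'), InjOn e D →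
    (∀ g c, (g, c) ∈ Γ → (c = true ∧ ∀ e' : K → K', InjOn e' (S g) → v g e' = true) ∨ (S g ⊆ D ∧ v g e = c)) →
    D.card + (2 * t + 1) * r ≤ Fintype.card K → Big (D.card + (2 * t + 1) * r) K' → False

/-- [SND] all lines are valid.
HYPS: GAM.
PROOF.  Induction on `Line C t A g`.  ax: hypothesis.  inf: if `v g e = false`, GAM for `D = S g`, `e`; the premises are valid, `(g, false)` is fixed. -/
def St_SND : Prop :=
  ∀ (I J K N K' : Type) [Fintype K] [DecidableEq K] (a : I → ℕ) (b : J → ℕ) (C : Circ (Tup a K × Tup b K) N) (r : ℕ) (S : N → Finset K)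
    (f : Tup a K' → Tup b K') (v : N → (K → K') → Bool),
    Supp C r S → Val C S f v → Inv C S v → ∀ (t : ℕ) (A : Set (Set ((Tup a K × Tup b K) × Bool))),
    (2 * t + 3) * r ≤ Fintype.card K → Big ((2 * t + 3) * r) K' →
    (∀ g, ∀ c ∈ A, IsClause C g c → ∀ e : K → K', InjOn e (S g) → v g e = true) →
    ∀ g, Line C t A g → ∀ e : K → K', InjOn e (S g) → v g e = true

/-- [AXP] the positive clauses are valid.
HYPS: EXD.
PROOF.  First part (the second is the same with `f.symm`).  `C.lab g = .big true T`.  (1) `p.2 u ∈ S g`: otherwise let `c = p.2 u`, `d`, `l` outside `S g` be different, `σ := swap c d * swap d l`, `τ g = g`, so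
`τ '' T = T`.  `Tup b K` is not empty (`f (p.map a e) : Tup b K'` gives `j : J`; `K` is not empty): some `h₀`, a gate `h₁ ∈ T` with `C.lab h₁ = .var (p, h₀)`; `τ h₁ ∈ T` has the label
`.var (p.map a σ, h₀.map b σ)`, and is a literal of the clause: `p.map a σ = p`, against `σ c = d`.  (2) `⟨j, h'⟩ := f (p.map a e)`.  Choose for every value `y` of `h'` which is not a value of `e` on `S g` a point
`x y ∉ S g`, injectively (at most `b j ≤ r` values, at least `2 r` points); `h.2 w :=` the point of `S g` with `e`-value `h' w`, or `x (h' w)`; `e₀ := e` on `S g`, `e₀ (x y) := y`.  `e₀` is injective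
on `S g ∪ {x y}`.  `h₁ ∈ T` with `C.lab h₁ = .var (p, ⟨j, h.2⟩)`; EXD: `e'` agrees with `e₀` on `S g ∪ {x y}` and is injective on `S g ∪ {x y} ∪ S h₁` (fewer than `3 r` points).  `v h₁ e' = true`:
`f (p.map a e') = f (p.map a e) = ⟨j, h'⟩ = ⟨j, e' ∘ h.2⟩`.  `Val.big`. -/
def St_AXP : Prop :=
  ∀ (I J K N K' : Type) [Fintype K] [DecidableEq K] (a : I → ℕ) (b : J → ℕ) (C : Circ (Tup a K × Tup b K) N) (r : ℕ) (S : N → Finset K)
    (f : Tup a K' ≃ Tup b K') (v : N → (K → K') → Bool),
    Supp C r S → Val C S f v → (∀ i, a i ≤ r) → (∀ j, b j ≤ r) → 3 * r ≤ Fintype.card K → Big (3 * r) K' →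
    (∀ g p, IsClause C g {l | ∃ h, l = ((p, h), true)} → ∀ e : K → K', InjOn e (S g) → v g e = true) ∧
    ∀ g h, IsClause C g {l | ∃ p, l = ((p, h), true)} → ∀ e : K → K', InjOn e (S g) → v g e = true

/-- [AXN] the negative clauses are valid.
HYPS: EXD.
PROOF.  Let the clause be `{(x, false), (x', false)}`, `x ≠ x'`, `C.lab g = .big true T`.  (1) All points of `x`, `x'` are in `S g`: otherwise let `c` be such a point outside `S g`, `d`, `l` as in
AXP, `σ := swap c d * swap d l`, `σ ^ 3 = 1` (or: `σ (σ (σ z)) = z`), `τ g = g`, `τ '' T = T`.  `σ` (on variables) maps `{x, x'}` to itself: `h₁ ∈ T` is the literal `(x, false)`, `C.lab h₁ = .neg h₂`,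
`C.lab h₂ = .var x`; `τ h₁ ∈ T` has the label `.neg (τ h₂)`, `C.lab (τ h₂) = .var (σ x)`, and is a literal of the clause: `σ x ∈ {x, x'}`.  `σ x = x'` is impossible: then `σ x' ∈ {x, x'}`, `σ x' ≠ x'`
(injective), so `σ x' = x` and `σ (σ (σ x)) = x' ≠ x`.  So `σ x = x`, `σ x' = x'`, and `σ` fixes all their points, against `σ c = d`.  (2) Suppose `v g e = false`, `e` injective on
`S g`.  For `h₁ ∈ T`, the literal `(x, false)`: EXD: `e₁ = e` on `S g`, injective on `S g ∪ S h₁`; `v h₁ e₁ ≠ true` (`Val.big`), so `v h₂ e₁ = true`: `f (p.map a e) = h.map b e` for `x = (p, h)` (the points are in `S g`).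
The same for `x'`.  If `x = (p, h)`, `x' = (p', h)`: `f` is injective: `p.map a e = p'.map a e`, `e` is injective on `S g`: `p = p'`.  If `x = (p, h)`, `x' = (p, h')`: `h.map b e = h'.map b e`, `h = h'`. -/
def St_AXN : Prop :=
  ∀ (I J K N K' : Type) [Fintype K] [DecidableEq K] (a : I → ℕ) (b : J → ℕ) (C : Circ (Tup a K × Tup b K) N) (r : ℕ) (S : N → Finset K)
    (f : Tup a K' ≃ Tup b K') (v : N → (K → K') → Bool),
    Supp C r S → Val C S f v → r + 2 ≤ Fintype.card K → Big (2 * r) K' →
    (∀ g p p' h, p ≠ p' → IsClause C g {((p, h), false), ((p', h), false)} → ∀ e : K → K', InjOn e (S g) → v g e = true) ∧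
    ∀ g p h h', h ≠ h' → IsClause C g {((p, h), false), ((p, h'), false)} → ∀ e : K → K', InjOn e (S g) → v g e = true

/-- [FIN] the theorem.
HYPS: SUP, VAL, IND, EXD (for one injection), SND, AXP, AXN.
PROOF.  Suppose the inequality fails.  SUP, VAL, IND: `S`, `v`.  AXP, AXN: the clauses are valid.  SND: the gate `g` with `C.lab g = .big true ∅` is valid; there is `e` injective on `S g`
(`Big`); `v g e = true` contradicts `Val.big`. -/
def St_FIN : Prop :=
  ∀ (I J K N : Type) [Fintype K] [Fintype N] (a : I → ℕ) (b : J → ℕ) (C : Circ (Tup a K × Tup b K) N) (t r : ℕ),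
    2 ≤ r → (∀ i, a i ≤ r) → (∀ j, b j ≤ r) → 8 * r * (r + 1) ≤ Fintype.card K → (2 * t + 3) * r ≤ Fintype.card K →
    (∃ K' : Type, Big ((2 * t + 3) * r) K' ∧ Nonempty (Tup a K' ≃ Tup b K')) →
    Refutes C t (Php (Tup a K) (Tup b K)) →
    (Fintype.card K).choose r * Nat.card (Syms C) ≤ Fintype.card N * (Fintype.card K).factorial

end Pool.Agent.SYR
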